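import Mathlib

/-!
Walsh–Fourier analysis on `(ZMod 2)^J`, and the ambiguity function of a vector of
`ℝ^((ZMod 2)^J)` with respect to the real Pauli operators.
-/

namespace Pool.Agent.H339R3.CE
open Finset

/-- the sign character of `ZMod 2` -/
def sg (x : ZMod 2) : ℝ := if x = 0 then 1 else -1

lemma zm2 (x : ZMod 2) : x = 0 ∨ x = 1 := by
  fin_cases x
  · left; rfl
  · right; rfl

lemma add_self2 (x : ZMod 2) : x + x = 0 := CharTwo.add_self_eq_zero x

lemma one_add_one2 : (1 : ZMod 2) + 1 = 0 := add_self2 1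

lemma sg_zero : sg 0 = 1 := by simp [sg]

lemma sg_one : sg 1 = -1 := by simp [sg]

lemma sg_add (x y : ZMod 2) : sg (x + y) = sg x * sg y := by
  rcases zm2 x with hx | hx <;> rcases zm2 y with hy | hy <;> subst hx <;> subst hy <;>
    simp [sg_zero, sg_one, one_add_one2]

lemma sg_mul_self (x : ZMod 2) : sg x * sg x = 1 := by
  rcases zm2 x with hx | hx <;> subst hx <;> simp [sg_zero, sg_one]

lemma sg_sq (x : ZMod 2) : sg x ^ 2 = 1 := by
  rw [sq, sg_mul_self]

variable {J : Type} [Fintype J] [DecidableEq J]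

lemma sum_sg_dot (C : J → ZMod 2) (hC : C ≠ 0) :
    ∑ P : J → ZMod 2, sg (P ⬝ᵥ C) = 0 := by
  obtain ⟨j, hj⟩ : ∃ j, C j ≠ 0 := by
    by_contra h
    push Not at h
    exact hC (funext h)
  have hj1 : C j = 1 := (zm2 (C j)).resolve_left hj
  have h2 : ∀ P : J → ZMod 2, sg ((P + Pi.single j 1) ⬝ᵥ C) = - sg (P ⬝ᵥ C) := by
    intro P
    rw [add_dotProduct, sg_add, single_dotProduct, hj1, one_mul, sg_one, mul_neg_one]
  have h1 : ∑ P : J → ZMod 2, sg ((P + Pi.single j 1) ⬝ᵥ C)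
      = ∑ P : J → ZMod 2, sg (P ⬝ᵥ C) := by
    have := Equiv.sum_comp (Equiv.addRight (Pi.single j (1 : ZMod 2)))
      (fun P : J → ZMod 2 => sg (P ⬝ᵥ C))
    simpa only [Equiv.coe_addRight] using this
  rw [Finset.sum_congr rfl (fun P _ => h2 P), Finset.sum_neg_distrib] at h1
  linarith

lemma sum_sg_dot' (B C : J → ZMod 2) :
    ∑ P : J → ZMod 2, sg (P ⬝ᵥ (B + C)) = if B = C then (2 : ℝ) ^ Fintype.card J else 0 := by
  split_ifs with h
  · subst h
    have : B + B = 0 := by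
      funext j
      exact add_self2 _
    rw [this]
    simp [sg_zero, ZMod.card]
  · apply sum_sg_dot
    intro h0
    apply h
    funext j
    have := congrFun h0 j
    simp only [Pi.add_apply, Pi.zero_apply] at this
    calc B j = B j + (C j + C j) := by rw [add_self2, add_zero]
      _ = (B j + C j) + C j := by ring
      _ = C j := by rw [this, zero_add]

/-- Walsh–Fourier transform -/
def wf (h : (J → ZMod 2) → ℝ) (P : J → ZMod 2) : ℝ := ∑ B : J → ZMod 2, sg (P ⬝ᵥ B) * h B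

lemma parseval (h k : (J → ZMod 2) → ℝ) :
    ∑ P, wf h P * wf k P = (2 : ℝ) ^ Fintype.card J * ∑ B, h B * k B := by
  unfold wf
  calc ∑ P : J → ZMod 2, (∑ B : J → ZMod 2, sg (P ⬝ᵥ B) * h B) * (∑ B : J → ZMod 2, sg (P ⬝ᵥ B) * k B)
      = ∑ P : J → ZMod 2, ∑ B : J → ZMod 2, ∑ C : J → ZMod 2,
          h B * k C * sg (P ⬝ᵥ (B + C)) := by
        refine Finset.sum_congr rfl (fun P _ => ?_)
        rw [Finset.sum_mul_sum]
        refine Finset.sum_congr rfl (fun B _ => Finset.sum_congr rfl (fun C _ => ?_))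
        rw [dotProduct_add, sg_add]
        ring
    _ = ∑ B : J → ZMod 2, ∑ C : J → ZMod 2, h B * k C *
          ∑ P : J → ZMod 2, sg (P ⬝ᵥ (B + C)) := by
        rw [Finset.sum_comm]
        refine Finset.sum_congr rfl (fun B _ => ?_)
        rw [Finset.sum_comm]
        refine Finset.sum_congr rfl (fun C _ => ?_)
        rw [Finset.mul_sum]
    _ = _ := by
        simp only [sum_sg_dot', mul_ite, mul_zero]
        simp only [Finset.sum_ite_eq, Finset.mem_univ, if_true]
        rw [Finset.mul_sum]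
        exact Finset.sum_congr rfl (fun B _ => by ring)

/-- ambiguity function -/
def amb (h : (J → ZMod 2) → ℝ) (P R : J → ZMod 2) : ℝ := wf (fun B => h B * h (B + R)) P

lemma amb_inner (h k : (J → ZMod 2) → ℝ) :
    ∑ R, ∑ P, amb h P R * amb k P R = (2 : ℝ) ^ Fintype.card J * (∑ B, h B * k B) ^ 2 := by
  unfold amb
  simp only [parseval]
  rw [← Finset.mul_sum, Finset.sum_comm, sq, Finset.sum_mul]
  congr 1
  refine Finset.sum_congr rfl (fun B _ => ?_)
  have : ∑ C, h C * k C = ∑ R : J → ZMod 2, h (B + R) * k (B + R) :=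
    (Equiv.sum_comp (Equiv.addLeft B) (fun C => h C * k C)).symm
  rw [this, Finset.mul_sum]
  exact Finset.sum_congr rfl (fun R _ => by ring)

lemma amb_le (h : (J → ZMod 2) → ℝ) (P R : J → ZMod 2) :
    (amb h P R) ^ 2 ≤ (∑ B, h B ^ 2) ^ 2 := by
  unfold amb wf
  have h1 := Finset.sum_mul_sq_le_sq_mul_sq (Finset.univ : Finset (J → ZMod 2))
    (fun B => sg (P ⬝ᵥ B) * h B) (fun B => h (B + R))
  have h2 : ∑ B : J → ZMod 2, (h (B + R)) ^ 2 = ∑ B, h B ^ 2 :=
    Equiv.sum_comp (Equiv.addRight R) (fun C => h C ^ 2)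
  have h3 : ∑ B : J → ZMod 2, (sg (P ⬝ᵥ B) * h B) ^ 2 = ∑ B, h B ^ 2 :=
    Finset.sum_congr rfl (fun B _ => by rw [mul_pow, sg_sq, one_mul])
  rw [h2, h3, ← sq] at h1
  refine le_trans (le_of_eq ?_) h1
  congr 1
  exact Finset.sum_congr rfl (fun B _ => by ring)

lemma amb_diag (k : (J → ZMod 2) → ℝ) (j : J) (P R : J → ZMod 2) :
    amb (fun B => sg (B j) * k B) P R = sg (R j) * amb k P R := by
  unfold amb wf
  rw [Finset.mul_sum]
  refine Finset.sum_congr rfl (fun B _ => ?_)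
  simp only [Pi.add_apply, sg_add]
  linear_combination (sg (P ⬝ᵥ B) * k B * k (B + R) * sg (R j)) * sg_mul_self (B j)

lemma amb_shift (k : (J → ZMod 2) → ℝ) (j : J) (P R : J → ZMod 2) :
    amb (fun B => k (B + Pi.single j 1)) P R = sg (P j) * amb k P R := by
  unfold amb wf
  rw [← Equiv.sum_comp (Equiv.addRight (Pi.single j (1 : ZMod 2)))
    (fun B : J → ZMod 2 => sg (P ⬝ᵥ B) * (k B * k (B + R))), Finset.mul_sum]
  refine Finset.sum_congr rfl (fun B _ => ?_)
  simp only [Equiv.coe_addRight, dotProduct_add, sg_add, dotProduct_single, mul_one]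
  have : B + R + Pi.single j 1 = B + Pi.single j 1 + R := by
    rw [add_right_comm]
  rw [this]
  linear_combination (-(sg (P ⬝ᵥ B) * (k (B + Pi.single j 1) * k (B + Pi.single j 1 + R)))) *
    sg_mul_self (P j)

/-- the norm -/
noncomputable def nm (h : (J → ZMod 2) → ℝ) : ℝ := Real.sqrt (∑ B, h B ^ 2)

lemma nm_nonneg (h : (J → ZMod 2) → ℝ) : 0 ≤ nm h := Real.sqrt_nonneg _

lemma nm_sq (h : (J → ZMod 2) → ℝ) : nm h ^ 2 = ∑ B, h B ^ 2 :=
  Real.sq_sqrt (Finset.sum_nonneg (fun _ _ => sq_nonneg _))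

/-- normalised ambiguity function -/
noncomputable def namb (h : (J → ZMod 2) → ℝ) (P R : J → ZMod 2) : ℝ := amb h P R / nm h

lemma namb_sq_le (h : (J → ZMod 2) → ℝ) (P R : J → ZMod 2) :
    (namb h P R) ^ 2 ≤ ∑ B, h B ^ 2 := by
  unfold namb
  rw [← nm_sq, div_pow]
  rcases (nm_nonneg h).eq_or_lt with h0 | h0
  · rw [← h0]; simp
  · rw [div_le_iff₀ (by positivity)]
    have := amb_le h P R
    rw [← nm_sq] at this
    nlinarith

lemma namb_sum_sq (h : (J → ZMod 2) → ℝ) :
    ∑ R, ∑ P, (namb h P R) ^ 2 = (2 : ℝ) ^ Fintype.card J * ∑ B, h B ^ 2 := by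
  have h1 := amb_inner h h
  have h2 : ∑ B, h B * h B = nm h ^ 2 := by
    rw [nm_sq]; exact Finset.sum_congr rfl (fun _ _ => by ring)
  rw [h2] at h1
  unfold namb
  rcases (nm_nonneg h).eq_or_lt with h0 | h0
  · rw [← nm_sq, ← h0]; simp
  · have : ∀ P R, (amb h P R / nm h) ^ 2 = (1 / nm h ^ 2) * (amb h P R * amb h P R) := by
      intro P R
      field_simp
    simp only [this, ← Finset.mul_sum]
    rw [h1, ← nm_sq]
    field_simp

lemma namb_sub (h k : (J → ZMod 2) → ℝ) :
    ∑ R, ∑ P, (namb h P R - namb k P R) ^ 2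
      ≤ 2 * (2 : ℝ) ^ Fintype.card J * ∑ B, (h B - k B) ^ 2 := by
  set N : ℝ := (2 : ℝ) ^ Fintype.card J with hN
  have hNpos : 0 < N := by positivity
  set c : ℝ := ∑ B, h B * k B with hc
  have hcross : ∑ R, ∑ P, namb h P R * namb k P R = N * c ^ 2 / (nm h * nm k) := by
    unfold namb
    have : ∀ P R, amb h P R / nm h * (amb k P R / nm k)
        = (1 / (nm h * nm k)) * (amb h P R * amb k P R) := by
      intro P R
      rw [div_mul_div_comm]; ring
    simp only [this, ← Finset.mul_sum]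
    rw [amb_inner h k]
    ring
  have hexp : ∑ R, ∑ P, (namb h P R - namb k P R) ^ 2
      = N * nm h ^ 2 + N * nm k ^ 2 - 2 * (N * c ^ 2 / (nm h * nm k)) := by
    rw [← hcross]
    have : ∀ P R, (namb h P R - namb k P R) ^ 2 = (namb h P R) ^ 2 + (namb k P R) ^ 2
        - 2 * (namb h P R * namb k P R) := by intro P R; ring
    simp only [this, Finset.sum_sub_distrib, Finset.sum_add_distrib, ← Finset.mul_sum]
    rw [namb_sum_sq, namb_sum_sq, ← nm_sq, ← nm_sq]
  have hsub : ∑ B, (h B - k B) ^ 2 = nm h ^ 2 + nm k ^ 2 - 2 * c := by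
    rw [nm_sq, nm_sq, hc]
    have : ∀ B, (h B - k B) ^ 2 = h B ^ 2 + k B ^ 2 - 2 * (h B * k B) := by intro B; ring
    simp only [this, Finset.sum_sub_distrib, Finset.sum_add_distrib, ← Finset.mul_sum]
  rw [hexp, hsub]
  have hcs : c ^ 2 ≤ nm h ^ 2 * nm k ^ 2 := by
    rw [nm_sq, nm_sq]
    exact Finset.sum_mul_sq_le_sq_mul_sq _ _ _
  rcases (nm_nonneg h).eq_or_lt with h0 | h0
  · have hc0 : c = 0 := by
      rw [← h0] at hcs
      have : c ^ 2 ≤ 0 := by simpa using hcs
      nlinarith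
    rw [← h0, hc0]
    have := sq_nonneg (nm k)
    simp
    nlinarith
  · rcases (nm_nonneg k).eq_or_lt with h1 | h1
    · have hc0 : c = 0 := by
        rw [← h1] at hcs
        have : c ^ 2 ≤ 0 := by simpa using hcs
        nlinarith
      rw [← h1, hc0]
      have := sq_nonneg (nm h)
      simp
      nlinarith
    · have hpr : 0 < nm h * nm k := by positivity
      have key : 0 ≤ nm h ^ 2 + nm k ^ 2 - 4 * c + 2 * (c ^ 2 / (nm h * nm k)) := by
        have e1 : 2 * (nm h * nm k) - 4 * c + 2 * (c ^ 2 / (nm h * nm k))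
            = 2 * ((nm h * nm k - c) ^ 2 / (nm h * nm k)) := by
          field_simp
          ring
        have e2 : 0 ≤ 2 * ((nm h * nm k - c) ^ 2 / (nm h * nm k)) := by positivity
        nlinarith [sq_nonneg (nm h - nm k)]
      have e3 : N * c ^ 2 / (nm h * nm k) = N * (c ^ 2 / (nm h * nm k)) := by ring
      rw [e3]
      nlinarith

end Pool.Agent.H339R3.CE
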