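import Mathlib
import Pool.Agent.H339R3.CE.Fourier

/-!
A signed Cheeger inequality.
-/

namespace Pool.Agent.H339R3.CE
open Finset

lemma coarea {ι : Type} (S : Finset ι) (w : ι → ℝ) : ∀ (k : ℕ) (φ : ι → ℝ),
    (S.filter (fun i => 0 < φ i)).card ≤ k → (∀ i ∈ S, 0 ≤ φ i) →
    ∑ i ∈ S, w i * φ i < 0 →
    ∃ t : ℝ, 0 ≤ t ∧ ∑ i ∈ S, w i * (if t < φ i then (1 : ℝ) else 0) < 0 := by
  classical
  intro k
  induction k with
  | zero =>
    intro φ hk hφ hneg
    exfalso
    have : ∑ i ∈ S, w i * φ i = 0 := by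
      apply Finset.sum_eq_zero
      intro i hi
      have h1 : ¬ 0 < φ i := by
        intro h
        have : i ∈ S.filter (fun i => 0 < φ i) := by simp [hi, h]
        have h2 := Finset.card_pos.mpr ⟨i, this⟩
        omega
      have h2 : φ i = 0 := le_antisymm (not_lt.mp h1) (hφ i hi)
      rw [h2, mul_zero]
    linarith
  | succ k ih =>
    intro φ hk hφ hneg
    by_cases hne : (S.filter (fun i => 0 < φ i)).Nonempty
    swap
    · apply ih φ _ hφ hneg
      rw [Finset.not_nonempty_iff_eq_empty] at hne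
      rw [hne]; simp
    obtain ⟨i₀, hi₀, hmin⟩ := Finset.exists_min_image _ φ hne
    simp only [Finset.mem_filter] at hi₀ hmin
    set m := φ i₀ with hm
    by_cases hW : ∑ i ∈ S, w i * (if 0 < φ i then (1 : ℝ) else 0) < 0
    · exact ⟨0, le_refl _, hW⟩
    push Not at hW
    let φ' : ι → ℝ := fun i => if 0 < φ i then φ i - m else 0
    have hφ' : ∀ i ∈ S, 0 ≤ φ' i := by
      intro i hi
      simp only [φ']
      split_ifs with h
      · have := hmin i ⟨hi, h⟩
        linarith
      · exact le_refl _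
    have hsum : ∑ i ∈ S, w i * φ' i = ∑ i ∈ S, w i * φ i
        - m * ∑ i ∈ S, w i * (if 0 < φ i then (1 : ℝ) else 0) := by
      rw [Finset.mul_sum, ← Finset.sum_sub_distrib]
      apply Finset.sum_congr rfl
      intro i hi
      simp only [φ']
      split_ifs with h
      · ring
      · have : φ i = 0 := le_antisymm (not_lt.mp h) (hφ i hi)
        rw [this]; ring
    have hm0 : 0 < m := hi₀.2
    have hneg' : ∑ i ∈ S, w i * φ' i < 0 := by
      rw [hsum]
      nlinarith
    have hcard : (S.filter (fun i => 0 < φ' i)).card ≤ k := by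
      have hsub : S.filter (fun i => 0 < φ' i) ⊆ (S.filter (fun i => 0 < φ i)).erase i₀ := by
        intro i hi
        simp only [Finset.mem_filter, φ'] at hi
        rw [Finset.mem_erase, Finset.mem_filter]
        by_cases h : 0 < φ i
        · refine ⟨?_, hi.1, h⟩
          rintro rfl
          have := hi.2
          rw [if_pos h] at this
          simp [hm] at this
        · have := hi.2
          rw [if_neg h] at this
          exact absurd this (lt_irrefl _)
      have h1 := Finset.card_le_card hsub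
      have h2 : i₀ ∈ S.filter (fun i => 0 < φ i) := Finset.mem_filter.mpr ⟨hi₀.1, hi₀.2⟩
      rw [Finset.card_erase_of_mem h2] at h1
      omega
    obtain ⟨t, ht, hlt⟩ := ih φ' hcard hφ' hneg'
    refine ⟨t + m, by linarith, ?_⟩
    convert hlt using 1
    apply Finset.sum_congr rfl
    intro i hi
    congr 1
    by_cases h : 0 < φ i
    · have e : φ' i = φ i - m := if_pos h
      by_cases h2 : t + m < φ i
      · rw [if_pos h2, if_pos (by rw [e]; linarith)]
      · rw [if_neg h2, if_neg (by rw [e]; linarith)]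
    · have e : φ' i = 0 := if_neg h
      rw [if_neg (by linarith), if_neg (by rw [e]; linarith)]

/-- edges with both ends in `W` -/
def act {V E : Type} [DecidableEq V] [Fintype E] (a b : E → V) (W : Finset V) : Finset E :=
  univ.filter (fun e => a e ∈ W ∧ b e ∈ W)

lemma mem_act {V E : Type} [DecidableEq V] [Fintype E] {a b : E → V} {W : Finset V} {e : E} :
    e ∈ act a b W ↔ a e ∈ W ∧ b e ∈ W := by
  simp [act]

lemma edge_ineq (x y L : ℝ) (hL : 2 ≤ L) :
    max (x ^ 2) (y ^ 2) - (if 0 ≤ x * y then min (x ^ 2) (y ^ 2) else 0)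
      ≤ L / 2 * (x - y) ^ 2 + 1 / L * (x ^ 2 + y ^ 2) := by
  have hL0 : 0 < L := by linarith
  have hi : 0 < 1 / L := by positivity
  split_ifs with h
  · have e1 : x ^ 2 - y ^ 2 ≤ L / 2 * (x - y) ^ 2 + 1 / L * (x ^ 2 + y ^ 2) := by
      have h1 : 0 ≤ (L * (x - y) - (x + y)) ^ 2 / (2 * L) := by positivity
      have h2 : (L * (x - y) - (x + y)) ^ 2 / (2 * L)
          = L / 2 * (x - y) ^ 2 - (x ^ 2 - y ^ 2) + 1 / L * ((x + y) ^ 2 / 2) := by
        field_simp; ring
      have h3 : 1 / L * ((x + y) ^ 2 / 2) ≤ 1 / L * (x ^ 2 + y ^ 2) := by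
        apply mul_le_mul_of_nonneg_left _ hi.le
        nlinarith [sq_nonneg (x - y)]
      linarith
    have e2 : y ^ 2 - x ^ 2 ≤ L / 2 * (x - y) ^ 2 + 1 / L * (x ^ 2 + y ^ 2) := by
      have h1 : 0 ≤ (L * (x - y) + (x + y)) ^ 2 / (2 * L) := by positivity
      have h2 : (L * (x - y) + (x + y)) ^ 2 / (2 * L)
          = L / 2 * (x - y) ^ 2 + (x ^ 2 - y ^ 2) + 1 / L * ((x + y) ^ 2 / 2) := by
        field_simp; ring
      have h3 : 1 / L * ((x + y) ^ 2 / 2) ≤ 1 / L * (x ^ 2 + y ^ 2) := by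
        apply mul_le_mul_of_nonneg_left _ hi.le
        nlinarith [sq_nonneg (x - y)]
      linarith
    rcases le_total (x ^ 2) (y ^ 2) with h' | h'
    · rw [max_eq_right h', min_eq_left h']; exact e2
    · rw [max_eq_left h', min_eq_right h']; exact e1
  · push Not at h
    have h1 : max (x ^ 2) (y ^ 2) ≤ x ^ 2 + y ^ 2 :=
      max_le (by nlinarith [sq_nonneg y]) (by nlinarith [sq_nonneg x])
    have h2 : x ^ 2 + y ^ 2 ≤ (x - y) ^ 2 := by nlinarith
    have h3 : (x - y) ^ 2 ≤ L / 2 * (x - y) ^ 2 := by nlinarith [sq_nonneg (x - y)]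
    have h4 : 0 ≤ 1 / L * (x ^ 2 + y ^ 2) := by positivity
    linarith

lemma deg_sum {V E : Type} [Fintype V] [DecidableEq V] [Fintype E] [DecidableEq E]
    (a b : E → V) (W : Finset V) (D : ℕ)
    (hdeg : ∀ v ∈ W, ((act a b W).filter (fun e => a e = v)).card
      + ((act a b W).filter (fun e => b e = v)).card ≤ D) (A : Finset V) (hA : A ⊆ W)
    (F : V → ℝ) (hF : ∀ v, 0 ≤ F v) :
    ∑ e ∈ (act a b W).filter (fun e => a e ∈ A), F (a e)
      + ∑ e ∈ (act a b W).filter (fun e => b e ∈ A), F (b e) ≤ D * ∑ v ∈ A, F v := by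
  have h1 : ∑ e ∈ (act a b W).filter (fun e => a e ∈ A), F (a e)
      = ∑ v ∈ A, (((act a b W).filter (fun e => a e = v)).card : ℝ) * F v := by
    rw [← Finset.sum_fiberwise_of_maps_to (s := (act a b W).filter (fun e => a e ∈ A)) (t := A)
      (g := a) (fun e he => (Finset.mem_filter.mp he).2)]
    apply Finset.sum_congr rfl
    intro v hv
    rw [Finset.sum_congr rfl (g := fun _ => F v)]
    · rw [Finset.sum_const, nsmul_eq_mul]
      congr 3
      ext e
      simp only [Finset.mem_filter]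
      constructor
      · rintro ⟨⟨h1, h2⟩, h3⟩; exact ⟨h1, h3⟩
      · rintro ⟨h1, h3⟩; exact ⟨⟨h1, by rw [h3]; exact hv⟩, h3⟩
    · intro e he
      rw [(Finset.mem_filter.mp he).2]
  have h2 : ∑ e ∈ (act a b W).filter (fun e => b e ∈ A), F (b e)
      = ∑ v ∈ A, (((act a b W).filter (fun e => b e = v)).card : ℝ) * F v := by
    rw [← Finset.sum_fiberwise_of_maps_to (s := (act a b W).filter (fun e => b e ∈ A)) (t := A)
      (g := b) (fun e he => (Finset.mem_filter.mp he).2)]
    apply Finset.sum_congr rfl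
    intro v hv
    rw [Finset.sum_congr rfl (g := fun _ => F v)]
    · rw [Finset.sum_const, nsmul_eq_mul]
      congr 3
      ext e
      simp only [Finset.mem_filter]
      constructor
      · rintro ⟨⟨h1, h2⟩, h3⟩; exact ⟨h1, h3⟩
      · rintro ⟨h1, h3⟩; exact ⟨⟨h1, by rw [h3]; exact hv⟩, h3⟩
    · intro e he
      rw [(Finset.mem_filter.mp he).2]
  rw [h1, h2, ← Finset.sum_add_distrib, Finset.mul_sum]
  apply Finset.sum_le_sum
  intro v hv
  rw [← add_mul]
  apply mul_le_mul_of_nonneg_right _ (hF v)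
  exact_mod_cast hdeg v (hA hv)

theorem signed_cheeger {V E : Type} [Fintype V] [DecidableEq V] [Fintype E] [DecidableEq E]
    (a b : E → V) (W : Finset V) (D : ℕ) (hD : 1 ≤ D)
    (hdeg : ∀ v ∈ W, ((act a b W).filter (fun e => a e = v)).card
      + ((act a b W).filter (fun e => b e = v)).card ≤ D)
    (hexp : ∀ A ⊆ W, 2 * A.card ≤ W.card →
      A.card ≤ 4 * ((act a b W).filter (fun e => ¬ (a e ∈ A ↔ b e ∈ A))).card)
    (κ : ℝ) (hκ : 0 < κ) (hκ4 : κ ≤ 1 / 4)
    (s : E → ZMod 2) (f : V → ℝ)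
    (hf : 2 * D / κ ^ 2 * ∑ e ∈ act a b W, (f (a e) - sg (s e) * f (b e)) ^ 2
      < ∑ v ∈ W, f v ^ 2) :
    ∃ σ : V → ZMod 2, (((act a b W).filter (fun e => s e ≠ σ (a e) + σ (b e))).card : ℝ)
      ≤ κ * (1 + 4 * D) * W.card := by
  classical
  have hDR : (1 : ℝ) ≤ D := by exact_mod_cast hD
  set M := act a b W with hM
  set x : E → ℝ := fun e => f (a e) with hx
  set y : E → ℝ := fun e => sg (s e) * f (b e) with hy
  have hy2 : ∀ e, y e ^ 2 = f (b e) ^ 2 := by
    intro e; simp only [hy, mul_pow, sg_sq, one_mul]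
  set L : ℝ := 2 * D / κ with hL
  have hL2 : 2 ≤ L := by
    rw [hL, le_div_iff₀ hκ]; nlinarith
  -- the weighted sum
  let S : Finset (V ⊕ (E ⊕ E)) := W.disjSum (M.disjSum M)
  let w : V ⊕ (E ⊕ E) → ℝ := Sum.elim (fun _ => -κ)
    (Sum.elim (fun _ => 1) (fun e => if 0 ≤ x e * y e then -1 else 0))
  let φ : V ⊕ (E ⊕ E) → ℝ := Sum.elim (fun v => f v ^ 2)
    (Sum.elim (fun e => max (x e ^ 2) (y e ^ 2)) (fun e => min (x e ^ 2) (y e ^ 2)))
  have hφ : ∀ i ∈ S, 0 ≤ φ i := by
    intro i _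
    rcases i with v | e | e
    · exact sq_nonneg _
    · exact le_max_of_le_left (sq_nonneg _)
    · exact le_min (sq_nonneg _) (sq_nonneg _)
  have hneg : ∑ i ∈ S, w i * φ i < 0 := by
    simp only [S, Finset.sum_disjSum, w, φ, Sum.elim_inl, Sum.elim_inr]
    have e1 : ∑ e ∈ M, 1 * max (x e ^ 2) (y e ^ 2)
        + ∑ e ∈ M, (if 0 ≤ x e * y e then (-1 : ℝ) else 0) * min (x e ^ 2) (y e ^ 2)
        = ∑ e ∈ M, (max (x e ^ 2) (y e ^ 2)
          - (if 0 ≤ x e * y e then min (x e ^ 2) (y e ^ 2) else 0)) := by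
      rw [← Finset.sum_add_distrib]
      apply Finset.sum_congr rfl
      intro e _
      split_ifs <;> ring
    rw [e1]
    have e2 : ∑ e ∈ M, (max (x e ^ 2) (y e ^ 2)
          - (if 0 ≤ x e * y e then min (x e ^ 2) (y e ^ 2) else 0))
        ≤ ∑ e ∈ M, (L / 2 * (x e - y e) ^ 2 + 1 / L * (x e ^ 2 + y e ^ 2)) :=
      Finset.sum_le_sum (fun e _ => edge_ineq _ _ _ hL2)
    have e3 : ∑ e ∈ M, (L / 2 * (x e - y e) ^ 2 + 1 / L * (x e ^ 2 + y e ^ 2))
        = L / 2 * ∑ e ∈ M, (x e - y e) ^ 2 + 1 / L * ∑ e ∈ M, (x e ^ 2 + y e ^ 2) := by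
      rw [Finset.sum_add_distrib, ← Finset.mul_sum, ← Finset.mul_sum]
    have e4 : ∑ e ∈ M, (x e ^ 2 + y e ^ 2) ≤ D * ∑ v ∈ W, f v ^ 2 := by
      have h := deg_sum a b W D hdeg W (Finset.Subset.refl _) (fun v => f v ^ 2)
        (fun v => sq_nonneg _)
      have h1 : (act a b W).filter (fun e => a e ∈ W) = M := by
        apply Finset.filter_true_of_mem
        intro e he
        exact (mem_act.mp he).1
      have h2 : (act a b W).filter (fun e => b e ∈ W) = M := by
        apply Finset.filter_true_of_mem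
        intro e he
        exact (mem_act.mp he).2
      rw [h1, h2, ← Finset.sum_add_distrib] at h
      refine le_trans (le_of_eq ?_) h
      apply Finset.sum_congr rfl
      intro e _
      rw [hy2]
    have hLpos : 0 < L := by linarith
    have e5 : 1 / L * ∑ e ∈ M, (x e ^ 2 + y e ^ 2) ≤ κ / 2 * ∑ v ∈ W, f v ^ 2 := by
      calc 1 / L * ∑ e ∈ M, (x e ^ 2 + y e ^ 2)
          ≤ 1 / L * (D * ∑ v ∈ W, f v ^ 2) :=
            mul_le_mul_of_nonneg_left e4 (by positivity)
        _ = κ / 2 * ∑ v ∈ W, f v ^ 2 := by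
            rw [hL]; field_simp
    have e6 : L / 2 * ∑ e ∈ M, (x e - y e) ^ 2 < κ / 2 * ∑ v ∈ W, f v ^ 2 := by
      calc L / 2 * ∑ e ∈ M, (x e - y e) ^ 2
          = κ / 2 * (2 * D / κ ^ 2 * ∑ e ∈ M, (x e - y e) ^ 2) := by
            rw [hL]; field_simp
        _ < κ / 2 * ∑ v ∈ W, f v ^ 2 := by
            apply mul_lt_mul_of_pos_left hf (by positivity)
    have e7 : ∑ v ∈ W, -κ * f v ^ 2 = -κ * ∑ v ∈ W, f v ^ 2 := by rw [Finset.mul_sum]
    rw [e7]
    linarith
  obtain ⟨t, ht, hlt⟩ := coarea S w _ φ (le_refl _) hφ hneg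
  have hlt : (∑ v ∈ W, -κ * (if t < f v ^ 2 then (1 : ℝ) else 0)) +
      ((∑ e ∈ M, 1 * (if t < max (x e ^ 2) (y e ^ 2) then (1 : ℝ) else 0)) +
        ∑ e ∈ M, (if 0 ≤ x e * y e then (-1 : ℝ) else 0) *
          (if t < min (x e ^ 2) (y e ^ 2) then (1 : ℝ) else 0)) < 0 := by
    have h := hlt
    simp only [S, Finset.sum_disjSum] at h
    exact h
  -- the level set
  set A : Finset V := W.filter (fun v => t < f v ^ 2) with hA
  have hAW : A ⊆ W := Finset.filter_subset _ _
  have hmemA : ∀ v ∈ W, (v ∈ A ↔ t < f v ^ 2) := by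
    intro v hv; simp [hA, hv]
  have hc1 : ∑ v ∈ W, -κ * (if t < f v ^ 2 then (1 : ℝ) else 0) = -κ * A.card := by
    rw [← Finset.mul_sum, Finset.sum_ite, Finset.sum_const_zero, add_zero, Finset.sum_const,
      nsmul_eq_mul, mul_one]
  rw [hc1] at hlt
  let bd : E → ℝ := fun e => (if t < max (x e ^ 2) (y e ^ 2) then (1 : ℝ) else 0)
    + (if 0 ≤ x e * y e then (-1 : ℝ) else 0) * (if t < min (x e ^ 2) (y e ^ 2) then (1 : ℝ) else 0)
  have hlt2 : ∑ e ∈ M, bd e < κ * A.card := by
    simp only [bd, Finset.sum_add_distrib]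
    simp only [one_mul] at hlt
    linarith
  have hbd0 : ∀ e, 0 ≤ bd e := by
    intro e
    simp only [bd]
    by_cases h1 : t < max (x e ^ 2) (y e ^ 2)
    · rw [if_pos h1]
      split_ifs <;> norm_num
    · have h2 : ¬ t < min (x e ^ 2) (y e ^ 2) := by
        intro h; exact h1 (lt_of_lt_of_le h (min_le_max))
      rw [if_neg h1, if_neg h2]; simp
  let σ : V → ZMod 2 := fun v => if 0 ≤ f v then 0 else 1
  have hσ : ∀ v, sg (σ v) * f v = |f v| := by
    intro v
    simp only [σ]
    split_ifs with h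
    · rw [sg_zero, one_mul, abs_of_nonneg h]
    · rw [sg_one, abs_of_neg (not_le.mp h)]; ring
  set dA : Finset E := M.filter (fun e => ¬ (a e ∈ A ↔ b e ∈ A)) with hdA
  set Fr : Finset E := M.filter (fun e => (a e ∈ A ∧ b e ∈ A) ∧ s e ≠ σ (a e) + σ (b e)) with hFr
  have hdisj : Disjoint dA Fr := by
    rw [Finset.disjoint_left]
    intro e he1 he2
    simp only [hdA, hFr, Finset.mem_filter] at he1 he2
    exact he1.2 ⟨fun _ => he2.2.1.2, fun _ => he2.2.1.1⟩
  have hbd1 : ∀ e ∈ dA ∪ Fr, bd e = 1 := by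
    intro e he
    rw [Finset.mem_union] at he
    rcases he with he | he
    · simp only [hdA, Finset.mem_filter] at he
      obtain ⟨heM, hne⟩ := he
      obtain ⟨haW, hbW⟩ := mem_act.mp heM
      rw [hmemA _ haW, hmemA _ hbW] at hne
      have hxe : x e ^ 2 = f (a e) ^ 2 := rfl
      rw [← hxe, ← hy2] at hne
      simp only [bd]
      by_cases h1 : t < x e ^ 2
      · have h2 : ¬ t < y e ^ 2 := fun h => hne ⟨fun _ => h, fun _ => h1⟩
        rw [if_pos (lt_max_of_lt_left h1)]
        rw [if_neg (fun h => h2 (lt_of_lt_of_le h (min_le_right _ _)))]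
        simp
      · have h2 : t < y e ^ 2 := by
          by_contra h2
          exact hne ⟨fun h => absurd h h1, fun h => absurd h h2⟩
        rw [if_pos (lt_max_of_lt_right h2)]
        rw [if_neg (fun h => h1 (lt_of_lt_of_le h (min_le_left _ _)))]
        simp
    · simp only [hFr, Finset.mem_filter] at he
      obtain ⟨heM, ⟨haA, hbA⟩, hs⟩ := he
      obtain ⟨haW, hbW⟩ := mem_act.mp heM
      rw [hmemA _ haW] at haA
      rw [hmemA _ hbW] at hbA
      have hfa : 0 < |f (a e)| := by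
        rw [abs_pos]
        rintro h
        rw [h] at haA; norm_num at haA; linarith
      have hfb : 0 < |f (b e)| := by
        rw [abs_pos]
        rintro h
        rw [h] at hbA; norm_num at hbA; linarith
      have hsg : sg (s e) = - (sg (σ (a e)) * sg (σ (b e))) := by
        rw [← sg_add]
        rcases zm2 (s e) with h1 | h1 <;> rcases zm2 (σ (a e) + σ (b e)) with h2 | h2
        · exact absurd (h1.trans h2.symm) hs
        · rw [h1, h2, sg_zero, sg_one]; ring
        · rw [h1, h2, sg_zero, sg_one]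
        · exact absurd (h1.trans h2.symm) hs
      have hxy : x e * y e < 0 := by
        simp only [hx, hy]
        have : f (a e) * (sg (s e) * f (b e)) = - (|f (a e)| * |f (b e)|) := by
          rw [hsg, ← hσ (a e), ← hσ (b e)]; ring
        rw [this]
        have := mul_pos hfa hfb
        linarith
      simp only [bd]
      rw [if_pos (lt_max_of_lt_left haA), if_neg (not_le.mpr hxy)]
      simp
  have hcards : ((dA.card : ℝ) + Fr.card) < κ * A.card := by
    refine lt_of_le_of_lt ?_ hlt2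
    have h1 : ∑ e ∈ dA ∪ Fr, bd e ≤ ∑ e ∈ M, bd e := by
      apply Finset.sum_le_sum_of_subset_of_nonneg
      · apply Finset.union_subset (Finset.filter_subset _ _) (Finset.filter_subset _ _)
      · intro e _ _; exact hbd0 e
    rw [Finset.sum_congr rfl hbd1, Finset.sum_const, nsmul_eq_mul, mul_one,
      Finset.card_union_of_disjoint hdisj] at h1
    exact_mod_cast h1
  have hFr0 : (0 : ℝ) ≤ Fr.card := Nat.cast_nonneg _
  have hdA0 : (0 : ℝ) ≤ dA.card := Nat.cast_nonneg _
  have hAc0 : (0 : ℝ) ≤ A.card := Nat.cast_nonneg _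
  have hAle : (A.card : ℝ) ≤ W.card := by exact_mod_cast Finset.card_le_card hAW
  have hbig : W.card < 2 * A.card := by
    by_contra hcon
    push Not at hcon
    have h1 := hexp A hAW hcon
    have h2 : (A.card : ℝ) ≤ 4 * dA.card := by exact_mod_cast h1
    nlinarith
  set Ac := W \ A with hAc
  have hAcW : Ac ⊆ W := Finset.sdiff_subset
  have hAcard : Ac.card + A.card = W.card := Finset.card_sdiff_add_card_eq_card hAW
  have hbdc : (M.filter (fun e => ¬ (a e ∈ Ac ↔ b e ∈ Ac))) = dA := by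
    apply Finset.filter_congr
    intro e he
    obtain ⟨haW, hbW⟩ := mem_act.mp he
    simp only [hAc, Finset.mem_sdiff, haW, hbW, true_and]
    tauto
  have hAcle : (Ac.card : ℝ) ≤ 4 * κ * W.card := by
    have h1 := hexp Ac hAcW (by omega)
    rw [hbdc] at h1
    have h2 : (Ac.card : ℝ) ≤ 4 * dA.card := by exact_mod_cast h1
    nlinarith
  refine ⟨σ, ?_⟩
  have hsub : M.filter (fun e => s e ≠ σ (a e) + σ (b e)) ⊆
      Fr ∪ (M.filter (fun e => a e ∈ Ac) ∪ M.filter (fun e => b e ∈ Ac)) := by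
    intro e he
    rw [Finset.mem_filter] at he
    obtain ⟨heM, hs⟩ := he
    obtain ⟨haW, hbW⟩ := mem_act.mp heM
    simp only [Finset.mem_union, hFr, Finset.mem_filter, hAc, Finset.mem_sdiff, haW, hbW, heM,
      true_and]
    by_cases h1 : a e ∈ A
    · by_cases h2 : b e ∈ A
      · left; exact ⟨⟨h1, h2⟩, hs⟩
      · right; right; exact h2
    · right; left; exact h1
  have h1 := Finset.card_le_card hsub
  have h2 := Finset.card_union_le Fr (M.filter (fun e => a e ∈ Ac) ∪ M.filter (fun e => b e ∈ Ac))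
  have h3 := Finset.card_union_le (M.filter (fun e => a e ∈ Ac)) (M.filter (fun e => b e ∈ Ac))
  have h4 := deg_sum a b W D hdeg Ac hAcW (fun _ => 1) (fun _ => zero_le_one)
  simp only [Finset.sum_const, nsmul_eq_mul, mul_one] at h4
  have h5 : ((M.filter (fun e => s e ≠ σ (a e) + σ (b e))).card : ℝ)
      ≤ Fr.card + ((M.filter (fun e => a e ∈ Ac)).card + (M.filter (fun e => b e ∈ Ac)).card) := by
    exact_mod_cast le_trans h1 (le_trans h2 (by omega))
  have hW0 : (0 : ℝ) ≤ W.card := Nat.cast_nonneg _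
  calc ((M.filter (fun e => s e ≠ σ (a e) + σ (b e))).card : ℝ)
      ≤ Fr.card + D * Ac.card := by linarith
    _ ≤ κ * W.card + D * (4 * κ * W.card) := by
        have : (D : ℝ) * Ac.card ≤ D * (4 * κ * W.card) :=
          mul_le_mul_of_nonneg_left hAcle (by linarith)
        nlinarith
    _ = κ * (1 + 4 * D) * W.card := by ring

end Pool.Agent.H339R3.CE
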