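import Mathlib
import Pool.Agent.H339R3.CE.Cheeger

/-!
Counting the signings which are close to a cut.
-/

namespace Pool.Agent.H339R3.CE
open Finset

/-- the signing `s` differs from a cut on at most `k` edges -/
def Bad {V E : Type} [DecidableEq V] [Fintype E] [DecidableEq E]
    (a b : E → V) (W : Finset V) (k : ℕ) (s : E → ZMod 2) : Prop :=
  ∃ σ : V → ZMod 2, ((act a b W).filter (fun e => s e ≠ σ (a e) + σ (b e))).card ≤ k

lemma sum_zm2 (F : ZMod 2 → ℝ) : ∑ z, F z = F 0 + F 1 := Fin.sum_univ_two F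

theorem bad_count {V E : Type} [Fintype V] [DecidableEq V] [Fintype E] [DecidableEq E]
    (a b : E → V) (W : Finset V) (k : ℕ) [DecidablePred (Bad a b W k)] :
    ((univ.filter (fun s : E → ZMod 2 => Bad a b W k s)).card : ℝ)
      ≤ 2 ^ Fintype.card V * 16 ^ k * (17 / 16) ^ Fintype.card E *
        2 ^ (Fintype.card E - (act a b W).card) := by
  classical
  set M := act a b W with hM
  have h1 : univ.filter (fun s : E → ZMod 2 => Bad a b W k s) ⊆
      univ.biUnion (fun σ : V → ZMod 2 => univ.filter (fun s : E → ZMod 2 =>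
        (M.filter (fun e => s e ≠ σ (a e) + σ (b e))).card ≤ k)) := by
    intro s hs
    rw [Finset.mem_filter] at hs
    obtain ⟨_, σ, hσ⟩ := hs
    rw [Finset.mem_biUnion]
    exact ⟨σ, Finset.mem_univ _, Finset.mem_filter.mpr ⟨Finset.mem_univ _, hσ⟩⟩
  have h2 : ∀ τ : E → ZMod 2, ((univ.filter (fun s : E → ZMod 2 =>
        (M.filter (fun e => s e ≠ τ e)).card ≤ k)).card : ℝ) ≤
        16 ^ k * (17 / 16) ^ Fintype.card E * 2 ^ (Fintype.card E - M.card) := by
    intro τ
    have e1 : ((univ.filter (fun s : E → ZMod 2 =>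
        (M.filter (fun e => s e ≠ τ e)).card ≤ k)).card : ℝ)
        ≤ ∑ s : E → ZMod 2, 16 ^ k * ∏ e, (if e ∈ M ∧ s e ≠ τ e then (1 / 16 : ℝ) else 1) := by
      have : ((univ.filter (fun s : E → ZMod 2 =>
          (M.filter (fun e => s e ≠ τ e)).card ≤ k)).card : ℝ) = ∑ s : E → ZMod 2,
            if (M.filter (fun e => s e ≠ τ e)).card ≤ k then (1 : ℝ) else 0 := by
        rw [Finset.sum_boole]
      rw [this]
      apply Finset.sum_le_sum
      intro s _
      have hprod : ∏ e, (if e ∈ M ∧ s e ≠ τ e then (1 / 16 : ℝ) else 1)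
          = (1 / 16) ^ (M.filter (fun e => s e ≠ τ e)).card := by
        rw [Finset.prod_ite, Finset.prod_const, Finset.prod_const_one, mul_one]
        congr 2
        ext e
        simp
      rw [hprod]
      split_ifs with h
      · have h3 : (1 / 16 : ℝ) ^ k ≤ (1 / 16) ^ (M.filter (fun e => s e ≠ τ e)).card :=
          pow_le_pow_of_le_one (by norm_num) (by norm_num) h
        calc (1 : ℝ) = 16 ^ k * (1 / 16) ^ k := by rw [← mul_pow]; norm_num
          _ ≤ _ := mul_le_mul_of_nonneg_left h3 (by positivity)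
      · positivity
    have e2 : ∑ s : E → ZMod 2, ∏ e, (if e ∈ M ∧ s e ≠ τ e then (1 / 16 : ℝ) else 1)
        = ∏ e, (if e ∈ M then (17 / 16 : ℝ) else 2) := by
      have h := Finset.prod_univ_sum (fun _ : E => (univ : Finset (ZMod 2)))
        (fun e z => if e ∈ M ∧ z ≠ τ e then (1 / 16 : ℝ) else 1)
      rw [Fintype.piFinset_univ] at h
      rw [← h]
      apply Finset.prod_congr rfl
      intro e _
      rw [sum_zm2]
      by_cases he : e ∈ M
      · rcases zm2 (τ e) with h0 | h0
        · simp [he, h0]; norm_num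
        · simp [he, h0]; norm_num
      · simp [he]; norm_num
    have e3 : ∏ e, (if e ∈ M then (17 / 16 : ℝ) else 2)
        ≤ (17 / 16) ^ Fintype.card E * 2 ^ (Fintype.card E - M.card) := by
      rw [Finset.prod_ite, Finset.prod_const, Finset.prod_const]
      have c1 : (univ.filter (fun e => e ∈ M)) = M := by ext e; simp
      have c2 : (univ.filter (fun e => e ∉ M)) = Mᶜ := by ext e; simp
      rw [c1, c2, Finset.card_compl]
      apply mul_le_mul_of_nonneg_right _ (by positivity)
      exact pow_le_pow_right₀ (by norm_num) (Finset.card_le_univ _)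
    calc _ ≤ _ := e1
      _ = 16 ^ k * ∏ e, (if e ∈ M then (17 / 16 : ℝ) else 2) := by
          rw [← Finset.mul_sum, e2]
      _ ≤ 16 ^ k * ((17 / 16) ^ Fintype.card E * 2 ^ (Fintype.card E - M.card)) :=
          mul_le_mul_of_nonneg_left e3 (by positivity)
      _ = _ := by ring
  calc ((univ.filter (fun s : E → ZMod 2 => Bad a b W k s)).card : ℝ)
      ≤ ((univ.biUnion (fun σ : V → ZMod 2 => univ.filter (fun s : E → ZMod 2 =>
        (M.filter (fun e => s e ≠ σ (a e) + σ (b e))).card ≤ k))).card : ℝ) := by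
        exact_mod_cast Finset.card_le_card h1
    _ ≤ ((∑ σ : V → ZMod 2, (univ.filter (fun s : E → ZMod 2 =>
        (M.filter (fun e => s e ≠ σ (a e) + σ (b e))).card ≤ k)).card : ℕ) : ℝ) := by
        exact_mod_cast Finset.card_biUnion_le
    _ ≤ ∑ σ : V → ZMod 2, 16 ^ k * (17 / 16) ^ Fintype.card E *
          2 ^ (Fintype.card E - M.card) := by
        rw [Nat.cast_sum]
        apply Finset.sum_le_sum
        intro σ _
        exact h2 (fun e => σ (a e) + σ (b e))
    _ = _ := by
        rw [Finset.sum_const, nsmul_eq_mul]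
        simp [ZMod.card]
        ring

end Pool.Agent.H339R3.CE
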