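import Mathlib
import Pool.Agent.H339R3.CE.Count

/-!
The twisted spectral gap.
-/

namespace Pool.Agent.H339R3.CE
open Finset

variable {V J : Type} [Fintype V] [DecidableEq V] [Fintype J] [DecidableEq J]

/-- the Pauli operator of an edge -/
def ga (e : J × Bool) (k : (J → ZMod 2) → ℝ) : (J → ZMod 2) → ℝ :=
  fun B => if e.2 = true then sg (B e.1) * k B else k (B + Pi.single e.1 1)

/-- the bijection between pairs and signings -/
def sE : ((J → ZMod 2) × (J → ZMod 2)) ≃ (J × Bool → ZMod 2) where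
  toFun PR := fun e => if e.2 = true then PR.2 e.1 else PR.1 e.1
  invFun s := (fun j => s (j, false), fun j => s (j, true))
  left_inv := by
    rintro ⟨P, R⟩
    simp
  right_inv := by
    intro s
    funext e
    obtain ⟨j, x⟩ := e
    cases x <;> simp

lemma amb_ga (e : J × Bool) (k : (J → ZMod 2) → ℝ) (P R : J → ZMod 2) :
    amb (ga e k) P R = sg (sE (P, R) e) * amb k P R := by
  obtain ⟨j, x⟩ := e
  cases x
  · exact amb_shift k j P R
  · exact amb_diag k j P R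

lemma nm_ga (e : J × Bool) (k : (J → ZMod 2) → ℝ) : nm (ga e k) = nm k := by
  unfold nm
  congr 1
  obtain ⟨j, x⟩ := e
  cases x
  · exact Equiv.sum_comp (Equiv.addRight (Pi.single j (1 : ZMod 2))) (fun C => k C ^ 2)
  · apply Finset.sum_congr rfl
    intro B _
    simp only [ga, if_true, mul_pow, sg_sq, one_mul]

lemma namb_ga (e : J × Bool) (k : (J → ZMod 2) → ℝ) (P R : J → ZMod 2) :
    namb (ga e k) P R = sg (sE (P, R) e) * namb k P R := by
  unfold namb
  rw [amb_ga, nm_ga, mul_div_assoc]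

theorem reduced_gap
    (a b : J × Bool → V) (W : Finset V) (D : ℕ) (hD : 1 ≤ D)
    (hdeg : ∀ v ∈ W, ((act a b W).filter (fun e => a e = v)).card
      + ((act a b W).filter (fun e => b e = v)).card ≤ D)
    (hexp : ∀ A ⊆ W, 2 * A.card ≤ W.card →
      A.card ≤ 4 * ((act a b W).filter (fun e => ¬ (a e ∈ A ↔ b e ∈ A))).card)
    (κ : ℝ) (hκ : 0 < κ) (hκ4 : κ ≤ 1 / 4) (k : ℕ) (hk : κ * (1 + 4 * D) * W.card ≤ k)
    [DecidablePred (Bad a b W k)]
    (hbad : 2 * ((univ.filter (fun s : J × Bool → ZMod 2 => Bad a b W k s)).card : ℝ)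
      ≤ 2 ^ Fintype.card J)
    (f : V → (J → ZMod 2) → ℝ) :
    κ ^ 2 / (8 * D) * ∑ v ∈ W, ∑ B, f v B ^ 2
      ≤ ∑ e ∈ act a b W, ∑ B, (f (a e) B - ga e (f (b e)) B) ^ 2 := by
  have hDR : (1 : ℝ) ≤ D := by exact_mod_cast hD
  set M := act a b W with hM
  set N : ℝ := 2 ^ Fintype.card J with hN
  have hNpos : 0 < N := by positivity
  set Zf : ℝ := ∑ v ∈ W, ∑ B, f v B ^ 2 with hZ
  have hZ0 : 0 ≤ Zf := Finset.sum_nonneg (fun _ _ => Finset.sum_nonneg (fun _ _ => sq_nonneg _))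
  set Q : ℝ := ∑ e ∈ M, ∑ B, (f (a e) B - ga e (f (b e)) B) ^ 2 with hQ
  -- pointwise in the Pauli operator
  have hpt : ∀ P R : J → ZMod 2, ∑ v ∈ W, (namb (f v) P R) ^ 2
      ≤ 2 * D / κ ^ 2 * ∑ e ∈ M, (namb (f (a e)) P R - namb (ga e (f (b e))) P R) ^ 2
        + (if Bad a b W k (sE (P, R)) then 1 else 0) * Zf := by
    intro P R
    by_cases hB : Bad a b W k (sE (P, R))
    · rw [if_pos hB, one_mul]
      have h1 : ∑ v ∈ W, (namb (f v) P R) ^ 2 ≤ Zf :=
        Finset.sum_le_sum (fun v _ => namb_sq_le (f v) P R)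
      have h2 : 0 ≤ 2 * D / κ ^ 2 *
          ∑ e ∈ M, (namb (f (a e)) P R - namb (ga e (f (b e))) P R) ^ 2 := by
        apply mul_nonneg (by positivity)
        exact Finset.sum_nonneg (fun _ _ => sq_nonneg _)
      linarith
    · rw [if_neg hB, zero_mul, add_zero]
      by_contra hcon
      push Not at hcon
      have h1 : ∑ e ∈ M, (namb (f (a e)) P R - namb (ga e (f (b e))) P R) ^ 2
          = ∑ e ∈ M, (namb (f (a e)) P R - sg (sE (P, R) e) * namb (f (b e)) P R) ^ 2 := by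
        apply Finset.sum_congr rfl
        intro e _
        rw [namb_ga]
      rw [h1] at hcon
      obtain ⟨σ, hσ⟩ := signed_cheeger a b W D hD hdeg hexp κ hκ hκ4 (sE (P, R))
        (fun v => namb (f v) P R) hcon
      apply hB
      refine ⟨σ, ?_⟩
      have := le_trans hσ hk
      exact_mod_cast this
  have hsum := Finset.sum_le_sum (fun R (_ : R ∈ (univ : Finset (J → ZMod 2))) =>
    Finset.sum_le_sum (fun P (_ : P ∈ (univ : Finset (J → ZMod 2))) => hpt P R))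
  -- left side
  have hL : ∑ R : J → ZMod 2, ∑ P : J → ZMod 2, ∑ v ∈ W, (namb (f v) P R) ^ 2 = N * Zf := by
    have : ∀ R : J → ZMod 2, ∑ P : J → ZMod 2, ∑ v ∈ W, (namb (f v) P R) ^ 2
        = ∑ v ∈ W, ∑ P : J → ZMod 2, (namb (f v) P R) ^ 2 := fun R => Finset.sum_comm
    simp only [this]
    rw [Finset.sum_comm, hZ, Finset.mul_sum]
    apply Finset.sum_congr rfl
    intro v _
    exact namb_sum_sq (f v)
  -- right side
  have hR1 : ∑ R : J → ZMod 2, ∑ P : J → ZMod 2,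
      ∑ e ∈ M, (namb (f (a e)) P R - namb (ga e (f (b e))) P R) ^ 2 ≤ 2 * N * Q := by
    have : ∀ R : J → ZMod 2, ∑ P : J → ZMod 2,
        ∑ e ∈ M, (namb (f (a e)) P R - namb (ga e (f (b e))) P R) ^ 2
        = ∑ e ∈ M, ∑ P : J → ZMod 2,
          (namb (f (a e)) P R - namb (ga e (f (b e))) P R) ^ 2 := fun R => Finset.sum_comm
    simp only [this]
    rw [Finset.sum_comm, hQ, Finset.mul_sum]
    apply Finset.sum_le_sum
    intro e _
    exact namb_sub (f (a e)) (ga e (f (b e)))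
  have hR2 : ∑ R : J → ZMod 2, ∑ P : J → ZMod 2,
      (if Bad a b W k (sE (P, R)) then (1 : ℝ) else 0)
      = ((univ.filter (fun s : J × Bool → ZMod 2 => Bad a b W k s)).card : ℝ) := by
    rw [Finset.sum_comm]
    rw [← Fintype.sum_prod_type' (fun P R : J → ZMod 2 =>
      (if Bad a b W k (sE (P, R)) then (1 : ℝ) else 0))]
    rw [Equiv.sum_comp (sE (J := J)) (fun s => (if Bad a b W k s then (1 : ℝ) else 0))]
    rw [Finset.sum_boole]
  have hR : ∑ R : J → ZMod 2, ∑ P : J → ZMod 2,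
      (2 * D / κ ^ 2 * ∑ e ∈ M, (namb (f (a e)) P R - namb (ga e (f (b e))) P R) ^ 2
        + (if Bad a b W k (sE (P, R)) then 1 else 0) * Zf)
      ≤ 2 * D / κ ^ 2 * (2 * N * Q) + N / 2 * Zf := by
    simp only [Finset.sum_add_distrib, ← Finset.mul_sum, ← Finset.sum_mul]
    rw [hR2]
    apply add_le_add
    · exact mul_le_mul_of_nonneg_left hR1 (by positivity)
    · apply mul_le_mul_of_nonneg_right _ hZ0
      linarith
  rw [hL] at hsum
  have hfin := le_trans hsum hR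
  have h3 : N / 2 * Zf ≤ N / 2 * (8 * D / κ ^ 2 * Q) := by
    have : 2 * D / κ ^ 2 * (2 * N * Q) = N / 2 * (8 * D / κ ^ 2 * Q) := by ring
    linarith
  have h4 : Zf ≤ 8 * D / κ ^ 2 * Q := le_of_mul_le_mul_left h3 (by positivity)
  calc κ ^ 2 / (8 * D) * Zf ≤ κ ^ 2 / (8 * D) * (8 * D / κ ^ 2 * Q) :=
        mul_le_mul_of_nonneg_left h4 (by positivity)
    _ = Q := by field_simp

/-- the sign picked up when moving along `e` -/
def tau (e : J × Bool) (S : J × Bool → ZMod 2) : ZMod 2 :=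
  if e.2 = true then S (e.1, false) else 0

/-- `A` on the `true` part, `B` on the `false` part -/
def mk2 (A B : J → ZMod 2) : J × Bool → ZMod 2 := sE (B, A)

/-- partial Fourier transform -/
def tr (h : (J × Bool → ZMod 2) → ℝ) (χ B : J → ZMod 2) : ℝ :=
  wf (fun A => h (mk2 A (B + χ))) χ

lemma tr_sum_sq (h : (J × Bool → ZMod 2) → ℝ) :
    ∑ χ, ∑ B, (tr h χ B) ^ 2 = (2 : ℝ) ^ Fintype.card J * ∑ S, h S ^ 2 := by
  have h1 : ∀ χ : J → ZMod 2, ∑ B, (tr h χ B) ^ 2 = ∑ B : J → ZMod 2,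
      (wf (fun A => h (mk2 A B)) χ) ^ 2 := by
    intro χ
    exact Equiv.sum_comp (Equiv.addRight χ) (fun B => (wf (fun A => h (mk2 A B)) χ) ^ 2)
  simp only [h1]
  rw [Finset.sum_comm]
  simp only [sq]
  simp only [parseval]
  rw [← Finset.mul_sum]
  congr 1
  rw [← Equiv.sum_comp (sE (J := J)) (fun S => h S * h S), Fintype.sum_prod_type]
  rfl

lemma tr_sub (h h' : (J × Bool → ZMod 2) → ℝ) (χ B : J → ZMod 2) :
    tr (fun S => h S - h' S) χ B = tr h χ B - tr h' χ B := by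
  unfold tr wf
  rw [← Finset.sum_sub_distrib]
  exact Finset.sum_congr rfl (fun A _ => by ring)

lemma mk2_add_true (A B : J → ZMod 2) (j : J) :
    mk2 A B + Pi.single (j, true) 1 = mk2 (A + Pi.single j 1) B := by
  funext e
  obtain ⟨i, x⟩ := e
  simp only [mk2, sE, Equiv.coe_fn_mk, Pi.add_apply, Pi.single_apply, Prod.mk.injEq]
  cases x <;> simp

lemma mk2_add_false (A B : J → ZMod 2) (j : J) :
    mk2 A B + Pi.single (j, false) 1 = mk2 A (B + Pi.single j 1) := by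
  funext e
  obtain ⟨i, x⟩ := e
  simp only [mk2, sE, Equiv.coe_fn_mk, Pi.add_apply, Pi.single_apply, Prod.mk.injEq]
  cases x <;> simp

lemma tr_move (h : (J × Bool → ZMod 2) → ℝ) (e : J × Bool) (χ B : J → ZMod 2) :
    tr (fun S => sg (tau e S) * h (S + Pi.single e 1)) χ B = ga e (tr h χ) B := by
  obtain ⟨j, x⟩ := e
  cases x
  · simp only [tr, ga, tau, Bool.false_eq_true, if_false, sg_zero, one_mul]
    simp only [mk2_add_false]
    rw [add_right_comm]
  · simp only [tr, ga, tau, if_true]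
    simp only [mk2_add_true]
    unfold wf
    have h1 := Equiv.sum_comp (Equiv.addRight (Pi.single j (1 : ZMod 2)))
      (fun A : J → ZMod 2 => sg (χ ⬝ᵥ A) * h (mk2 A (B + χ)))
    rw [← h1, Finset.mul_sum]
    apply Finset.sum_congr rfl
    intro A _
    simp only [Equiv.coe_addRight, dotProduct_add, sg_add, dotProduct_single, mul_one]
    have h2 : mk2 A (B + χ) (j, false) = B j + χ j := by
      simp [mk2, sE]
    rw [h2, sg_add]
    ring

theorem full_gap
    (a b : J × Bool → V) (W : Finset V) (D : ℕ) (hD : 1 ≤ D)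
    (hdeg : ∀ v ∈ W, ((act a b W).filter (fun e => a e = v)).card
      + ((act a b W).filter (fun e => b e = v)).card ≤ D)
    (hexp : ∀ A ⊆ W, 2 * A.card ≤ W.card →
      A.card ≤ 4 * ((act a b W).filter (fun e => ¬ (a e ∈ A ↔ b e ∈ A))).card)
    (κ : ℝ) (hκ : 0 < κ) (hκ4 : κ ≤ 1 / 4) (k : ℕ) (hk : κ * (1 + 4 * D) * W.card ≤ k)
    [DecidablePred (Bad a b W k)]
    (hbad : 2 * ((univ.filter (fun s : J × Bool → ZMod 2 => Bad a b W k s)).card : ℝ)
      ≤ 2 ^ Fintype.card J)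
    (F : V → (J × Bool → ZMod 2) → ℝ) :
    κ ^ 2 / (8 * D) * ∑ v ∈ W, ∑ S, F v S ^ 2
      ≤ ∑ e ∈ act a b W, ∑ S, (F (a e) S - sg (tau e S) * F (b e) (S + Pi.single e 1)) ^ 2 := by
  set N : ℝ := 2 ^ Fintype.card J with hN
  have hNpos : 0 < N := by positivity
  have h1 : ∀ χ : J → ZMod 2, κ ^ 2 / (8 * D) * ∑ v ∈ W, ∑ B, (tr (F v) χ B) ^ 2
      ≤ ∑ e ∈ act a b W, ∑ B,
        (tr (fun S => F (a e) S - sg (tau e S) * F (b e) (S + Pi.single e 1)) χ B) ^ 2 := by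
    intro χ
    have := reduced_gap a b W D hD hdeg hexp κ hκ hκ4 k hk hbad (fun v => tr (F v) χ)
    refine le_trans this (le_of_eq ?_)
    apply Finset.sum_congr rfl
    intro e _
    apply Finset.sum_congr rfl
    intro B _
    rw [tr_sub, tr_move]
  have h2 := Finset.sum_le_sum (fun χ (_ : χ ∈ (univ : Finset (J → ZMod 2))) => h1 χ)
  have h3 : ∑ χ : J → ZMod 2, ∑ v ∈ W, ∑ B, (tr (F v) χ B) ^ 2
      = N * ∑ v ∈ W, ∑ S, F v S ^ 2 := by
    rw [Finset.sum_comm, Finset.mul_sum]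
    exact Finset.sum_congr rfl (fun v _ => tr_sum_sq (F v))
  have h4 : ∑ χ : J → ZMod 2, ∑ e ∈ act a b W, ∑ B,
        (tr (fun S => F (a e) S - sg (tau e S) * F (b e) (S + Pi.single e 1)) χ B) ^ 2
      = N * ∑ e ∈ act a b W, ∑ S,
        (F (a e) S - sg (tau e S) * F (b e) (S + Pi.single e 1)) ^ 2 := by
    rw [Finset.sum_comm, Finset.mul_sum]
    exact Finset.sum_congr rfl (fun e _ => tr_sum_sq _)
  rw [← Finset.mul_sum, h3, h4] at h2
  have h5 : N * (κ ^ 2 / (8 * D) * ∑ v ∈ W, ∑ S, F v S ^ 2) ≤ N * ∑ e ∈ act a b W, ∑ S,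
        (F (a e) S - sg (tau e S) * F (b e) (S + Pi.single e 1)) ^ 2 := by
    linarith
  exact le_of_mul_le_mul_left h5 hNpos

lemma triple_comm {α β ι : Type*} [Fintype β] [Fintype ι] (W : Finset α) (g : α → β → ι → ℝ) :
    ∑ v ∈ W, ∑ S, ∑ i, g v S i = ∑ i, ∑ v ∈ W, ∑ S, g v S i := by
  have h1 : ∀ v, ∑ S, ∑ i, g v S i = ∑ i, ∑ S, g v S i := fun v => Finset.sum_comm
  simp only [h1]
  rw [Finset.sum_comm]

theorem hilbert_gap
    (a b : J × Bool → V) (W : Finset V) (D : ℕ) (hD : 1 ≤ D)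
    (hdeg : ∀ v ∈ W, ((act a b W).filter (fun e => a e = v)).card
      + ((act a b W).filter (fun e => b e = v)).card ≤ D)
    (hexp : ∀ A ⊆ W, 2 * A.card ≤ W.card →
      A.card ≤ 4 * ((act a b W).filter (fun e => ¬ (a e ∈ A ↔ b e ∈ A))).card)
    (κ : ℝ) (hκ : 0 < κ) (hκ4 : κ ≤ 1 / 4) (k : ℕ) (hk : κ * (1 + 4 * D) * W.card ≤ k)
    [DecidablePred (Bad a b W k)]
    (hbad : 2 * ((univ.filter (fun s : J × Bool → ZMod 2 => Bad a b W k s)).card : ℝ)
      ≤ 2 ^ Fintype.card J)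
    {H : Type*} [NormedAddCommGroup H] [InnerProductSpace ℝ H]
    (F : V → (J × Bool → ZMod 2) → H) :
    κ ^ 2 / (8 * D) * ∑ v ∈ W, ∑ S, ‖F v S‖ ^ 2
      ≤ ∑ e ∈ act a b W, ∑ S,
        ‖F (a e) S - sg (tau e S) • F (b e) (S + Pi.single e 1)‖ ^ 2 := by
  classical
  let U : Submodule ℝ H := Submodule.span ℝ
    (Set.range (fun p : V × (J × Bool → ZMod 2) => F p.1 p.2))
  haveI : FiniteDimensional ℝ U := FiniteDimensional.span_of_finite ℝ (Set.finite_range _)
  let F' : V → (J × Bool → ZMod 2) → U := fun v S =>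
    ⟨F v S, Submodule.subset_span ⟨(v, S), rfl⟩⟩
  let bs := stdOrthonormalBasis ℝ U
  have hn : ∀ u : U, ‖(u : H)‖ ^ 2 = ∑ i, (inner ℝ (bs i) u) ^ 2 := by
    intro u
    have h := bs.sum_sq_norm_inner_right u
    rw [← Submodule.coe_norm, ← h]
    apply Finset.sum_congr rfl
    intro i _
    rw [Real.norm_eq_abs, sq_abs]
  have h1 : ∀ v S, ‖F v S‖ ^ 2 = ∑ i, (inner ℝ (bs i) (F' v S)) ^ 2 := by
    intro v S
    exact hn (F' v S)
  have h2 : ∀ (e : J × Bool) S, ‖F (a e) S - sg (tau e S) • F (b e) (S + Pi.single e 1)‖ ^ 2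
      = ∑ i, (inner ℝ (bs i) (F' (a e) S)
        - sg (tau e S) * inner ℝ (bs i) (F' (b e) (S + Pi.single e 1))) ^ 2 := by
    intro e S
    have := hn (F' (a e) S - sg (tau e S) • F' (b e) (S + Pi.single e 1))
    refine Eq.trans ?_ (Eq.trans this ?_)
    · rfl
    · apply Finset.sum_congr rfl
      intro i _
      rw [inner_sub_right, inner_smul_right]
  simp only [h1, h2]
  have h3 : ∀ i, κ ^ 2 / (8 * D) * ∑ v ∈ W, ∑ S, (inner ℝ (bs i) (F' v S)) ^ 2
      ≤ ∑ e ∈ act a b W, ∑ S, (inner ℝ (bs i) (F' (a e) S)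
        - sg (tau e S) * inner ℝ (bs i) (F' (b e) (S + Pi.single e 1))) ^ 2 := fun i =>
    full_gap a b W D hD hdeg hexp κ hκ hκ4 k hk hbad (fun v S => inner ℝ (bs i) (F' v S))
  have h4 := Finset.sum_le_sum (fun i (_ : i ∈ (univ : Finset _)) => h3 i)
  rw [← Finset.mul_sum] at h4
  rw [triple_comm, triple_comm]
  exact h4

end Pool.Agent.H339R3.CE
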