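import Mathlib
import Pool.Agent.H339R3.CE.Count

/-!
Counting: a random out-regular graph expands large sets and has few short cycles.
-/

namespace Pool.Agent.H339R3.CE
open Finset

/-- the edges: two batches of `q` out-edges at every vertex -/
abbrev Ed (n q : ℕ) : Type := (Fin n × Fin q) × Bool

lemma card_Ed (n q : ℕ) : Fintype.card (Ed n q) = 2 * q * n := by
  simp [Ed]; ring

lemma card_tail (n q : ℕ) (A : Finset (Fin n)) :
    (univ.filter (fun e : Ed n q => e.1.1 ∈ A)).card = 2 * q * A.card := by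
  have : (univ.filter (fun e : Ed n q => e.1.1 ∈ A)) = (A ×ˢ univ) ×ˢ univ := by
    ext e; simp
  rw [this, Finset.card_product, Finset.card_product]
  simp; ring

/-- number of heads functions avoiding a set on prescribed edges -/
lemma count_avoid (n : ℕ) {E : Type} [Fintype E] [DecidableEq E] (Φ : Finset E)
    (U : Finset (Fin n)) :
    ((univ.filter (fun ω : E → Fin n => ∀ e ∈ Φ, ω e ∈ U)).card : ℝ) * (n : ℝ) ^ Φ.card
      = (U.card : ℝ) ^ Φ.card * (n : ℝ) ^ Fintype.card E := by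
  have h1 : (univ.filter (fun ω : E → Fin n => ∀ e ∈ Φ, ω e ∈ U))
      = Fintype.piFinset (fun e => if e ∈ Φ then U else univ) := by
    ext ω
    simp only [Finset.mem_filter, Finset.mem_univ, true_and, Fintype.mem_piFinset]
    constructor
    · intro h e
      by_cases he : e ∈ Φ
      · rw [if_pos he]; exact h e he
      · rw [if_neg he]; exact Finset.mem_univ _
    · intro h e he
      have := h e
      rwa [if_pos he] at this
  rw [h1, Fintype.card_piFinset]
  have h2 : ∀ e : E, (if e ∈ Φ then U else (univ : Finset (Fin n))).card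
      = if e ∈ Φ then U.card else n := by
    intro e; split_ifs <;> simp
  simp only [h2]
  rw [Finset.prod_ite, Finset.prod_const, Finset.prod_const]
  have c1 : (univ.filter (fun e => e ∈ Φ)) = Φ := by ext e; simp
  have c2 : (univ.filter (fun e => e ∉ Φ)) = Φᶜ := by ext e; simp
  rw [c1, c2, Finset.card_compl]
  have h3 : Φ.card ≤ Fintype.card E := Finset.card_le_univ _
  push_cast
  rw [mul_assoc, ← pow_add, Nat.sub_add_cancel h3]

/-- large set expansion -/
def P1 (n q k : ℕ) (ω : Ed n q → Fin n) : Prop :=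
  ∀ A C : Finset (Fin n), n ≤ k * A.card → n ≤ 4 * C.card → ∃ e, e.1.1 ∈ A ∧ ω e ∈ C

/-- small sets do not receive many edges -/
def P2 (n q : ℕ) (ω : Ed n q → Fin n) : Prop :=
  ∀ U : Finset (Fin n), 64 * U.card ≤ n →
    4 * (univ.filter (fun e : Ed n q => ω e ∈ U)).card < 2 * q * n

lemma count_P1 (n k : ℕ) (hn : 0 < n) [DecidablePred (P1 n (4 * k) k)] :
    ((univ.filter (fun ω : Ed n (4 * k) → Fin n => ¬ P1 n (4 * k) k ω)).card : ℝ)
      ≤ (1 / 2) ^ n * (n : ℝ) ^ Fintype.card (Ed n (4 * k)) := by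
  classical
  set E := Ed n (4 * k) with hE
  have hnR : (0 : ℝ) < n := by exact_mod_cast hn
  -- pairs
  let Pr : Finset (Finset (Fin n) × Finset (Fin n)) :=
    univ.filter (fun p => n ≤ k * p.1.card ∧ n ≤ 4 * p.2.card)
  have hsub : univ.filter (fun ω : E → Fin n => ¬ P1 n (4 * k) k ω) ⊆
      Pr.biUnion (fun p => univ.filter (fun ω : E → Fin n =>
        ∀ e ∈ univ.filter (fun e : E => e.1.1 ∈ p.1), ω e ∈ p.2ᶜ)) := by
    intro ω hω
    simp only [Finset.mem_filter, Finset.mem_univ, true_and, P1] at hω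
    push Not at hω
    obtain ⟨A, C, hA, hC, hno⟩ := hω
    simp only [Finset.mem_biUnion, Finset.mem_filter, Finset.mem_univ, true_and, Pr]
    exact ⟨(A, C), ⟨hA, hC⟩, fun e he => Finset.mem_compl.mpr (hno e he)⟩
  have hone : ∀ p ∈ Pr, ((univ.filter (fun ω : E → Fin n =>
        ∀ e ∈ univ.filter (fun e : E => e.1.1 ∈ p.1), ω e ∈ p.2ᶜ)).card : ℝ)
        ≤ (1 / 8) ^ n * (n : ℝ) ^ Fintype.card E := by
    intro p hp
    simp only [Pr, Finset.mem_filter, Finset.mem_univ, true_and] at hp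
    obtain ⟨hA, hC⟩ := hp
    have h := count_avoid n (univ.filter (fun e : E => e.1.1 ∈ p.1)) p.2ᶜ
    rw [card_tail] at h
    set m := 2 * (4 * k) * p.1.card with hm
    have hm8 : 8 * n ≤ m := by nlinarith
    have hc : ((p.2ᶜ).card : ℝ) ≤ 3 / 4 * n := by
      rw [Finset.card_compl, Fintype.card_fin]
      have h1 : p.2.card ≤ n := by simpa using Finset.card_le_univ p.2
      rw [Nat.cast_sub h1]
      have h2 : (n : ℝ) ≤ 4 * p.2.card := by exact_mod_cast hC
      linarith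
    have hc2 : ((p.2ᶜ).card : ℝ) ^ m ≤ (1 / 8) ^ n * (n : ℝ) ^ m := by
      calc ((p.2ᶜ).card : ℝ) ^ m ≤ (3 / 4 * n) ^ m := pow_le_pow_left₀ (Nat.cast_nonneg _) hc m
        _ = (3 / 4) ^ m * (n : ℝ) ^ m := mul_pow _ _ _
        _ ≤ (3 / 4) ^ (8 * n) * (n : ℝ) ^ m := by
            apply mul_le_mul_of_nonneg_right _ (by positivity)
            exact pow_le_pow_of_le_one (by norm_num) (by norm_num) hm8
        _ ≤ (1 / 8) ^ n * (n : ℝ) ^ m := by
            apply mul_le_mul_of_nonneg_right _ (by positivity)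
            rw [pow_mul]
            exact pow_le_pow_left₀ (by norm_num) (by norm_num) n
    have h2 : ((univ.filter (fun ω : E → Fin n =>
        ∀ e ∈ univ.filter (fun e : E => e.1.1 ∈ p.1), ω e ∈ p.2ᶜ)).card : ℝ) * (n : ℝ) ^ m
        ≤ ((1 / 8) ^ n * (n : ℝ) ^ Fintype.card E) * (n : ℝ) ^ m := by
      rw [h]
      calc ((p.2ᶜ).card : ℝ) ^ m * (n : ℝ) ^ Fintype.card E
          ≤ ((1 / 8) ^ n * (n : ℝ) ^ m) * (n : ℝ) ^ Fintype.card E :=
            mul_le_mul_of_nonneg_right hc2 (by positivity)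
        _ = _ := by ring
    exact le_of_mul_le_mul_right h2 (by positivity)
  have hPr : (Pr.card : ℝ) ≤ 4 ^ n := by
    have h1 : Pr.card ≤ Fintype.card (Finset (Fin n) × Finset (Fin n)) := Finset.card_le_univ _
    have h2 : Fintype.card (Finset (Fin n) × Finset (Fin n)) = 4 ^ n := by
      rw [Fintype.card_prod, Fintype.card_finset, Fintype.card_fin, ← mul_pow]
      norm_num
    rw [h2] at h1
    exact_mod_cast h1
  calc ((univ.filter (fun ω : E → Fin n => ¬ P1 n (4 * k) k ω)).card : ℝ)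
      ≤ ((Pr.biUnion (fun p => univ.filter (fun ω : E → Fin n =>
        ∀ e ∈ univ.filter (fun e : E => e.1.1 ∈ p.1), ω e ∈ p.2ᶜ))).card : ℝ) := by
        exact_mod_cast Finset.card_le_card hsub
    _ ≤ ((∑ p ∈ Pr, (univ.filter (fun ω : E → Fin n =>
        ∀ e ∈ univ.filter (fun e : E => e.1.1 ∈ p.1), ω e ∈ p.2ᶜ)).card : ℕ) : ℝ) := by
        exact_mod_cast Finset.card_biUnion_le
    _ ≤ ∑ p ∈ Pr, (1 / 8) ^ n * (n : ℝ) ^ Fintype.card E := by
        rw [Nat.cast_sum]
        exact Finset.sum_le_sum hone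
    _ = Pr.card * ((1 / 8) ^ n * (n : ℝ) ^ Fintype.card E) := by
        rw [Finset.sum_const, nsmul_eq_mul]
    _ ≤ 4 ^ n * ((1 / 8) ^ n * (n : ℝ) ^ Fintype.card E) :=
        mul_le_mul_of_nonneg_right hPr (by positivity)
    _ = (1 / 2) ^ n * (n : ℝ) ^ Fintype.card E := by
        rw [← mul_assoc, ← mul_pow]; norm_num

lemma count_P2 (n q : ℕ) (hn : 0 < n) (hq : 2 ≤ q) [DecidablePred (P2 n q)] :
    ((univ.filter (fun ω : Ed n q → Fin n => ¬ P2 n q ω)).card : ℝ)
      ≤ (1 / 2) ^ n * (n : ℝ) ^ Fintype.card (Ed n q) := by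
  classical
  set E := Ed n q with hE
  have hnR : (0 : ℝ) < n := by exact_mod_cast hn
  let Pr : Finset (Finset (Fin n) × Finset E) :=
    univ.filter (fun p => 64 * p.1.card ≤ n ∧ q * n ≤ 2 * p.2.card)
  have hsub : univ.filter (fun ω : E → Fin n => ¬ P2 n q ω) ⊆
      Pr.biUnion (fun p => univ.filter (fun ω : E → Fin n => ∀ e ∈ p.2, ω e ∈ p.1)) := by
    intro ω hω
    simp only [Finset.mem_filter, Finset.mem_univ, true_and, P2] at hω
    push Not at hω
    obtain ⟨U, hU, hno⟩ := hω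
    simp only [Finset.mem_biUnion, Finset.mem_filter, Finset.mem_univ, true_and, Pr]
    refine ⟨(U, univ.filter (fun e : E => ω e ∈ U)), ⟨hU, ?_⟩, ?_⟩
    · simp only
      nlinarith
    · intro e he
      simpa using he
  have hone : ∀ p ∈ Pr, ((univ.filter (fun ω : E → Fin n => ∀ e ∈ p.2, ω e ∈ p.1)).card : ℝ)
        ≤ (1 / 8) ^ (q * n) * (n : ℝ) ^ Fintype.card E := by
    intro p hp
    simp only [Pr, Finset.mem_filter, Finset.mem_univ, true_and] at hp
    obtain ⟨hU, hΦ⟩ := hp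
    have h := count_avoid n p.2 p.1
    set m := p.2.card with hm
    have hc : ((p.1).card : ℝ) ≤ (1 / 8) ^ 2 * n := by
      have h2 : 64 * (p.1.card : ℝ) ≤ n := by exact_mod_cast hU
      linarith
    have hc2 : ((p.1).card : ℝ) ^ m ≤ (1 / 8) ^ (q * n) * (n : ℝ) ^ m := by
      calc ((p.1).card : ℝ) ^ m ≤ ((1 / 8) ^ 2 * n) ^ m :=
            pow_le_pow_left₀ (Nat.cast_nonneg _) hc m
        _ = (1 / 8) ^ (2 * m) * (n : ℝ) ^ m := by rw [mul_pow, ← pow_mul]
        _ ≤ (1 / 8) ^ (q * n) * (n : ℝ) ^ m := by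
            apply mul_le_mul_of_nonneg_right _ (by positivity)
            exact pow_le_pow_of_le_one (by norm_num) (by norm_num) hΦ
    have h2 : ((univ.filter (fun ω : E → Fin n => ∀ e ∈ p.2, ω e ∈ p.1)).card : ℝ) * (n : ℝ) ^ m
        ≤ ((1 / 8) ^ (q * n) * (n : ℝ) ^ Fintype.card E) * (n : ℝ) ^ m := by
      rw [h]
      calc ((p.1).card : ℝ) ^ m * (n : ℝ) ^ Fintype.card E
          ≤ ((1 / 8) ^ (q * n) * (n : ℝ) ^ m) * (n : ℝ) ^ Fintype.card E :=
            mul_le_mul_of_nonneg_right hc2 (by positivity)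
        _ = _ := by ring
    exact le_of_mul_le_mul_right h2 (by positivity)
  have hPr : (Pr.card : ℝ) ≤ 2 ^ n * 4 ^ (q * n) := by
    have h1 : Pr.card ≤ Fintype.card (Finset (Fin n) × Finset E) := Finset.card_le_univ _
    have h2 : Fintype.card (Finset (Fin n) × Finset E) = 2 ^ n * 4 ^ (q * n) := by
      have hcE : Fintype.card E = 2 * q * n := card_Ed n q
      rw [Fintype.card_prod, Fintype.card_finset, Fintype.card_fin, Fintype.card_finset, hcE,
        mul_assoc, pow_mul]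
      norm_num
    rw [h2] at h1
    exact_mod_cast h1
  calc ((univ.filter (fun ω : E → Fin n => ¬ P2 n q ω)).card : ℝ)
      ≤ ((Pr.biUnion (fun p => univ.filter (fun ω : E → Fin n => ∀ e ∈ p.2, ω e ∈ p.1))).card
          : ℝ) := by
        exact_mod_cast Finset.card_le_card hsub
    _ ≤ ((∑ p ∈ Pr, (univ.filter (fun ω : E → Fin n => ∀ e ∈ p.2, ω e ∈ p.1)).card : ℕ) : ℝ) := by
        exact_mod_cast Finset.card_biUnion_le
    _ ≤ ∑ p ∈ Pr, (1 / 8) ^ (q * n) * (n : ℝ) ^ Fintype.card E := by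
        rw [Nat.cast_sum]
        exact Finset.sum_le_sum hone
    _ = Pr.card * ((1 / 8) ^ (q * n) * (n : ℝ) ^ Fintype.card E) := by
        rw [Finset.sum_const, nsmul_eq_mul]
    _ ≤ (2 ^ n * 4 ^ (q * n)) * ((1 / 8) ^ (q * n) * (n : ℝ) ^ Fintype.card E) :=
        mul_le_mul_of_nonneg_right hPr (by positivity)
    _ = (2 ^ n * (1 / 2) ^ (q * n)) * (n : ℝ) ^ Fintype.card E := by
        have : (4 : ℝ) ^ (q * n) * (1 / 8) ^ (q * n) = (1 / 2) ^ (q * n) := by
          rw [← mul_pow]; norm_num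
        rw [← this]; ring
    _ ≤ (1 / 2) ^ n * (n : ℝ) ^ Fintype.card E := by
        apply mul_le_mul_of_nonneg_right _ (by positivity)
        have h1 : (1 / 2 : ℝ) ^ (q * n) ≤ (1 / 2) ^ (2 * n) :=
          pow_le_pow_of_le_one (by norm_num) (by norm_num) (Nat.mul_le_mul_right n hq)
        calc (2 : ℝ) ^ n * (1 / 2) ^ (q * n) ≤ 2 ^ n * (1 / 2) ^ (2 * n) :=
              mul_le_mul_of_nonneg_left h1 (by positivity)
          _ = (1 / 2) ^ n := by
              rw [two_mul, pow_add, ← mul_assoc, ← mul_pow]; norm_num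

end Pool.Agent.H339R3.CE
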