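import Mathlib
import Pool.Agent.H339R3.CE.Rand1

/-!
Counting the short even edge sets of a random out-regular graph.
-/

namespace Pool.Agent.H339R3.CE
open Finset

/-- boundary mod 2 of an edge set -/
def bdry {V E : Type} [DecidableEq V] (a b : E → V) (T : Finset E) (v : V) : ZMod 2 :=
  ∑ e ∈ T, ((if a e = v then 1 else 0) + (if b e = v then 1 else 0))

lemma bdry_eq {V E : Type} [DecidableEq V] (a b : E → V) (T : Finset E) (v : V) :
    bdry a b T v = (((T.filter (fun e => a e = v)).card + (T.filter (fun e => b e = v)).card : ℕ)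
      : ZMod 2) := by
  unfold bdry
  rw [Finset.sum_add_distrib, Finset.sum_boole, Finset.sum_boole]
  push_cast
  rfl

lemma supp_card {V E : Type} [DecidableEq V] [DecidableEq E] (a b : E → V) (T : Finset E)
    (h : ∀ v, bdry a b T v = 0) : (T.image a ∪ T.image b).card ≤ T.card := by
  set Su := T.image a ∪ T.image b with hSu
  have h1 : T.card = ∑ v ∈ Su, (T.filter (fun e => a e = v)).card :=
    Finset.card_eq_sum_card_fiberwise (fun e he =>
      Finset.mem_coe.mpr (Finset.mem_union_left _ (Finset.mem_image_of_mem a he)))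
  have h2 : T.card = ∑ v ∈ Su, (T.filter (fun e => b e = v)).card :=
    Finset.card_eq_sum_card_fiberwise (fun e he =>
      Finset.mem_coe.mpr (Finset.mem_union_right _ (Finset.mem_image_of_mem b he)))
  have h3 : ∀ v ∈ Su, 2 ≤ (T.filter (fun e => a e = v)).card
      + (T.filter (fun e => b e = v)).card := by
    intro v hv
    have hev := h v
    rw [bdry_eq, ZMod.natCast_eq_zero_iff] at hev
    have hpos : 0 < (T.filter (fun e => a e = v)).card + (T.filter (fun e => b e = v)).card := by
      rw [hSu, Finset.mem_union, Finset.mem_image, Finset.mem_image] at hv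
      rcases hv with ⟨e, he, hev⟩ | ⟨e, he, hev⟩
      · have : 0 < (T.filter (fun e => a e = v)).card :=
          Finset.card_pos.mpr ⟨e, Finset.mem_filter.mpr ⟨he, hev⟩⟩
        omega
      · have : 0 < (T.filter (fun e => b e = v)).card :=
          Finset.card_pos.mpr ⟨e, Finset.mem_filter.mpr ⟨he, hev⟩⟩
        omega
    exact Nat.le_of_dvd hpos hev
  have h4 := Finset.sum_le_sum h3
  rw [Finset.sum_add_distrib, ← h1, ← h2, Finset.sum_const, smul_eq_mul] at h4
  omega

/-- codes for short even sets -/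
abbrev Code (n q l : ℕ) : Type :=
  (Fin l → Fin n) × (Fin l → Fin l) × (Fin l → Fin q × Bool) × (Fin l → Fin l)

/-- the edges of a code -/
def cedge {n q l : ℕ} (c : Code n q l) (k : Fin l) : Ed n q :=
  ((c.1 (c.2.1 k), (c.2.2.1 k).1), (c.2.2.1 k).2)

/-- validity of a code -/
def Valid {n q l : ℕ} (ω : Ed n q → Fin n) (c : Code n q l) : Prop :=
  Function.Injective (cedge c) ∧ ∀ k, ω (cedge c k) = c.1 (c.2.2.2 k)

/-- tail of an edge -/
def tl {n q : ℕ} (e : Ed n q) : Fin n := e.1.1

lemma exists_code {n q l : ℕ} (hl : 1 ≤ l) (ω : Ed n q → Fin n) (T : Finset (Ed n q))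
    (hT : T.card = l) (hev : ∀ v, bdry tl ω T v = 0) :
    ∃ c : Code n q l, Valid ω c ∧ univ.image (cedge c) = T := by
  classical
  have hsc := supp_card tl ω T hev
  rw [hT] at hsc
  set Su := T.image tl ∪ T.image ω with hSu
  have hTne : T.Nonempty := Finset.card_pos.mp (by omega)
  obtain ⟨e₀, he₀⟩ := hTne
  -- naming
  obtain ⟨m⟩ : Nonempty (Su ↪ Fin l) := by
    rw [Function.Embedding.nonempty_iff_card_le]
    simpa using hsc
  let c1 : Fin l → Fin n := fun i => if h : ∃ x : Su, m x = i then (h.choose : Fin n) else tl e₀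
  have hc1 : ∀ x : Su, c1 (m x) = x := by
    intro x
    have h : ∃ y : Su, m y = m x := ⟨x, rfl⟩
    simp only [c1]
    rw [dif_pos h]
    have := h.choose_spec
    rw [m.injective this]
  let en := T.equivFinOfCardEq hT
  have hta : ∀ k, tl (en.symm k : Ed n q) ∈ Su := fun k =>
    Finset.mem_union_left _ (Finset.mem_image_of_mem tl (en.symm k).2)
  have hhe : ∀ k, ω (en.symm k : Ed n q) ∈ Su := fun k =>
    Finset.mem_union_right _ (Finset.mem_image_of_mem ω (en.symm k).2)
  let c : Code n q l := (c1, fun k => m ⟨_, hta k⟩,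
    fun k => ((en.symm k : Ed n q).1.2, (en.symm k : Ed n q).2), fun k => m ⟨_, hhe k⟩)
  have hce : ∀ k, cedge c k = (en.symm k : Ed n q) := by
    intro k
    unfold cedge
    simp only [c]
    rw [hc1]
    rfl
  refine ⟨c, ⟨?_, ?_⟩, ?_⟩
  · intro i j hij
    rw [hce, hce] at hij
    exact en.symm.injective (Subtype.ext hij)
  · intro k
    rw [hce]
    simp only [c]
    rw [hc1]
  · ext e
    rw [Finset.mem_image]
    constructor
    · rintro ⟨k, _, rfl⟩
      rw [hce]
      exact (en.symm k).2
    · intro he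
      refine ⟨en ⟨e, he⟩, Finset.mem_univ _, ?_⟩
      rw [hce, Equiv.symm_apply_apply]

lemma count_code {n q l : ℕ} (c : Code n q l) (hc : Function.Injective (cedge c))
    [DecidablePred (fun ω : Ed n q → Fin n => ∀ k, ω (cedge c k) = c.1 (c.2.2.2 k))] :
    (univ.filter (fun ω : Ed n q → Fin n => ∀ k, ω (cedge c k) = c.1 (c.2.2.2 k))).card * n ^ l
      ≤ n ^ Fintype.card (Ed n q) := by
  classical
  set E := Ed n q with hE
  let S : E → Finset (Fin n) := fun e =>
    univ.filter (fun z => ∀ k, cedge c k = e → z = c.1 (c.2.2.2 k))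
  have hsub : (univ.filter (fun ω : Ed n q → Fin n => ∀ k, ω (cedge c k) = c.1 (c.2.2.2 k)))
      ⊆ Fintype.piFinset S := by
    intro ω hω
    simp only [Finset.mem_filter, Finset.mem_univ, true_and] at hω
    simp only [Fintype.mem_piFinset, S, Finset.mem_filter, Finset.mem_univ, true_and]
    intro e k hk
    rw [← hk]; exact hω k
  have h1 := Finset.card_le_card hsub
  rw [Fintype.card_piFinset] at h1
  set R : Finset E := univ.image (cedge c) with hR
  have hRc : R.card = l := by
    rw [hR, Finset.card_image_of_injective _ hc, Finset.card_univ, Fintype.card_fin]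
  have h2 : ∏ e, (S e).card ≤ ∏ e, (if e ∈ R then 1 else n) := by
    apply Finset.prod_le_prod'
    intro e _
    split_ifs with he
    · rw [hR, Finset.mem_image] at he
      obtain ⟨k, _, hk⟩ := he
      apply Finset.card_le_one.mpr
      intro z hz z' hz'
      simp only [S, Finset.mem_filter, Finset.mem_univ, true_and] at hz hz'
      rw [hz k hk, hz' k hk]
    · exact le_trans (Finset.card_le_univ _) (by simp)
  rw [Finset.prod_ite, Finset.prod_const_one, one_mul, Finset.prod_const] at h2
  have c2 : (univ.filter (fun e => e ∉ R)) = Rᶜ := by ext e; simp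
  rw [c2, Finset.card_compl, hRc] at h2
  have h3 : l ≤ Fintype.card E := by
    rw [← hRc]; exact Finset.card_le_univ _
  calc (univ.filter (fun ω : Ed n q → Fin n => ∀ k, ω (cedge c k) = c.1 (c.2.2.2 k))).card * n ^ l
      ≤ n ^ (Fintype.card E - l) * n ^ l := Nat.mul_le_mul_right _ (le_trans h1 h2)
    _ = n ^ Fintype.card E := by rw [← pow_add, Nat.sub_add_cancel h3]

/-- even sets of a given size -/
def evs {n q : ℕ} (ω : Ed n q → Fin n) (l : ℕ) : Finset (Finset (Ed n q)) :=
  univ.filter (fun T => T.card = l ∧ ∀ v, bdry tl ω T v = 0)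

lemma sum_evs {n q l : ℕ} (hn : 0 < n) (hl : 1 ≤ l) :
    ∑ ω : Ed n q → Fin n, (evs ω l).card ≤ (l * (2 * q) * l) ^ l * n ^ Fintype.card (Ed n q) := by
  classical
  have h1 : ∀ ω : Ed n q → Fin n, (evs ω l).card ≤
      (univ.filter (fun c : Code n q l => Valid ω c)).card := by
    intro ω
    apply Finset.card_le_card_of_surjOn (fun c => univ.image (cedge c))
    intro T hT
    simp only [evs, Finset.coe_filter, Finset.mem_univ, true_and, Set.mem_setOf_eq] at hT
    obtain ⟨c, hc, hcT⟩ := exists_code hl ω T hT.1 hT.2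
    exact ⟨c, by simpa using hc, hcT⟩
  have h2 : ∑ ω : Ed n q → Fin n, (univ.filter (fun c : Code n q l => Valid ω c)).card
      = ∑ c : Code n q l, (univ.filter (fun ω : Ed n q → Fin n => Valid ω c)).card := by
    simp only [Finset.card_filter]
    exact Finset.sum_comm
  have h3 : ∀ c : Code n q l, (univ.filter (fun ω : Ed n q → Fin n => Valid ω c)).card * n ^ l
      ≤ n ^ Fintype.card (Ed n q) := by
    intro c
    by_cases hc : Function.Injective (cedge c)
    · refine le_trans (Nat.mul_le_mul_right _ (Finset.card_le_card ?_)) (count_code c hc)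
      intro ω hω
      simp only [Finset.mem_filter, Finset.mem_univ, true_and] at hω ⊢
      exact hω.2
    · have : (univ.filter (fun ω : Ed n q → Fin n => Valid ω c)) = ∅ := by
        apply Finset.filter_eq_empty_iff.mpr
        intro ω _ h
        exact hc h.1
      rw [this]; simp
  have h4 : Fintype.card (Code n q l) = (l * (2 * q) * l) ^ l * n ^ l := by
    simp only [Code, Fintype.card_prod, Fintype.card_fun, Fintype.card_fin, Fintype.card_bool]
    simp only [mul_pow]
    ring
  have h5 : (∑ ω : Ed n q → Fin n, (evs ω l).card) * n ^ l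
      ≤ ((l * (2 * q) * l) ^ l * n ^ Fintype.card (Ed n q)) * n ^ l := by
    calc (∑ ω : Ed n q → Fin n, (evs ω l).card) * n ^ l
        ≤ (∑ ω : Ed n q → Fin n, (univ.filter (fun c : Code n q l => Valid ω c)).card) * n ^ l :=
          Nat.mul_le_mul_right _ (Finset.sum_le_sum (fun ω _ => h1 ω))
      _ = ∑ c : Code n q l,
          (univ.filter (fun ω : Ed n q → Fin n => Valid ω c)).card * n ^ l := by
          rw [h2, Finset.sum_mul]
      _ ≤ ∑ c : Code n q l, n ^ Fintype.card (Ed n q) := Finset.sum_le_sum (fun c _ => h3 c)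
      _ = ((l * (2 * q) * l) ^ l * n ^ l) * n ^ Fintype.card (Ed n q) := by
          rw [Finset.sum_const, smul_eq_mul, Finset.card_univ, h4]
      _ = _ := by ring
  exact Nat.le_of_mul_le_mul_right h5 (by positivity)

/-- short nonempty even sets -/
def shorts {n q : ℕ} (ω : Ed n q → Fin n) (g : ℕ) : Finset (Finset (Ed n q)) :=
  univ.filter (fun T => T.Nonempty ∧ T.card ≤ g ∧ ∀ v, bdry tl ω T v = 0)

/-- the constant -/
def KK (q g : ℕ) : ℕ := ∑ l ∈ Finset.Icc 1 g, (l * (2 * q) * l) ^ l

lemma sum_shorts {n q g : ℕ} (hn : 0 < n) :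
    ∑ ω : Ed n q → Fin n, (shorts ω g).card ≤ KK q g * n ^ Fintype.card (Ed n q) := by
  classical
  have h1 : ∀ ω : Ed n q → Fin n, (shorts ω g).card ≤ ∑ l ∈ Finset.Icc 1 g, (evs ω l).card := by
    intro ω
    have hsub : shorts ω g ⊆ (Finset.Icc 1 g).biUnion (fun l => evs ω l) := by
      intro T hT
      simp only [shorts, Finset.mem_filter, Finset.mem_univ, true_and] at hT
      simp only [Finset.mem_biUnion, Finset.mem_Icc, evs, Finset.mem_filter, Finset.mem_univ,
        true_and]
      exact ⟨T.card, ⟨Finset.card_pos.mpr hT.1, hT.2.1⟩, rfl, hT.2.2⟩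
    exact le_trans (Finset.card_le_card hsub) Finset.card_biUnion_le
  calc ∑ ω : Ed n q → Fin n, (shorts ω g).card
      ≤ ∑ ω : Ed n q → Fin n, ∑ l ∈ Finset.Icc 1 g, (evs ω l).card :=
        Finset.sum_le_sum (fun ω _ => h1 ω)
    _ = ∑ l ∈ Finset.Icc 1 g, ∑ ω : Ed n q → Fin n, (evs ω l).card := Finset.sum_comm
    _ ≤ ∑ l ∈ Finset.Icc 1 g, (l * (2 * q) * l) ^ l * n ^ Fintype.card (Ed n q) :=
        Finset.sum_le_sum (fun l hl => sum_evs hn (Finset.mem_Icc.mp hl).1)
    _ = KK q g * n ^ Fintype.card (Ed n q) := by rw [KK, Finset.sum_mul]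

end Pool.Agent.H339R3.CE
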