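import Mathlib
import Pool.Agent.H339R3.CE.Gap
import Pool.Agent.H339R3.CE.Rand2

/-!
The two covers of a finite graph.
-/

namespace Pool.Agent.H339R3.CE
open Finset

variable {V J : Type} [Fintype V] [DecidableEq V] [Fintype J] [DecidableEq J]

/-- vertices of the homology cover -/
abbrev YV (V J : Type) : Type := V × (J × Bool → ZMod 2)

/-- vertices of the Pauli cover -/
abbrev XV (V J : Type) : Type := V × (J × Bool → ZMod 2) × ZMod 2

/-- `e` joins `v` to `w` -/
def Joins (a b : J × Bool → V) (W : Finset V) (e : J × Bool) (v w : V) : Prop :=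
  e ∈ act a b W ∧ ((v = a e ∧ w = b e) ∨ (v = b e ∧ w = a e))

omit [Fintype V] [DecidableEq J] in
lemma Joins.symm {a b : J × Bool → V} {W : Finset V} {e : J × Bool} {v w : V}
    (h : Joins a b W e v w) : Joins a b W e w v := by
  obtain ⟨h1, h2⟩ := h
  refine ⟨h1, ?_⟩
  rcases h2 with ⟨h2, h3⟩ | ⟨h2, h3⟩
  · right; exact ⟨h3, h2⟩
  · left; exact ⟨h3, h2⟩

omit [Fintype J] in
lemma add_single_twice (S : J × Bool → ZMod 2) (e : J × Bool) :
    S + Pi.single e 1 + Pi.single e 1 = S := by
  funext i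
  simp only [Pi.add_apply]
  rw [add_assoc, add_self2, add_zero]

omit [Fintype J] in
lemma tau_add (S : J × Bool → ZMod 2) (e : J × Bool) :
    tau e (S + Pi.single e 1) = tau e S := by
  obtain ⟨j, x⟩ := e
  cases x
  · simp [tau]
  · simp [tau]

omit [Fintype J] in
lemma single_ne (S : J × Bool → ZMod 2) (e : J × Bool) : S + Pi.single e 1 ≠ S := by
  intro h
  have := congrFun h e
  simp at this

/-- the homology cover -/
def YG (a b : J × Bool → V) (W : Finset V) : SimpleGraph (YV V J) where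
  Adj y y' := ∃ e, Joins a b W e y.1 y'.1 ∧ y'.2 = y.2 + Pi.single e 1
  symm := ⟨by
    rintro y y' ⟨e, h1, h2⟩
    refine ⟨e, h1.symm, ?_⟩
    rw [h2, add_single_twice]⟩
  loopless := ⟨by
    rintro y ⟨e, _, h2⟩
    exact single_ne _ _ h2.symm⟩

/-- the Pauli cover -/
def XG (a b : J × Bool → V) (W : Finset V) : SimpleGraph (XV V J) where
  Adj x x' := ∃ e, Joins a b W e x.1 x'.1 ∧ x'.2.1 = x.2.1 + Pi.single e 1 ∧
    x'.2.2 = x.2.2 + tau e x.2.1
  symm := ⟨by
    rintro x x' ⟨e, h1, h2, h3⟩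
    refine ⟨e, h1.symm, ?_, ?_⟩
    · rw [h2, add_single_twice]
    · rw [h3, h2, tau_add, add_assoc, add_self2, add_zero]⟩
  loopless := ⟨by
    rintro x ⟨e, _, h2, _⟩
    exact single_ne _ _ h2.symm⟩

/-- the projection -/
def proj (x : XV V J) : YV V J := (x.1, x.2.1)

lemma proj_adj {a b : J × Bool → V} {W : Finset V} {x x' : XV V J}
    (h : (XG a b W).Adj x x') : (YG a b W).Adj (proj x) (proj x') := by
  obtain ⟨e, h1, h2, _⟩ := h
  exact ⟨e, h1, h2⟩

lemma proj_edist (a b : J × Bool → V) (W : Finset V) (x x' : XV V J) :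
    (YG a b W).edist (proj x) (proj x') ≤ (XG a b W).edist x x' := by
  by_cases h : (XG a b W).edist x x' = ⊤
  · rw [h]; exact le_top
  · obtain ⟨p, hp⟩ := SimpleGraph.exists_walk_of_edist_ne_top h
    let f : XG a b W →g YG a b W := ⟨proj, fun h => proj_adj h⟩
    have := SimpleGraph.Walk.edist_le (p.map f)
    rw [SimpleGraph.Walk.length_map, hp] at this
    exact this

lemma deg_bound (a b : J × Bool → V) (W : Finset V) (D : ℕ)
    (hdeg : ∀ v ∈ W, ((act a b W).filter (fun e => a e = v)).card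
      + ((act a b W).filter (fun e => b e = v)).card ≤ D) (v : V) :
    ((act a b W).filter (fun e => a e = v)).card
      + ((act a b W).filter (fun e => b e = v)).card ≤ D := by
  by_cases hv : v ∈ W
  · exact hdeg v hv
  · have h1 : (act a b W).filter (fun e => a e = v) = ∅ := by
      apply Finset.filter_eq_empty_iff.mpr
      intro e he h
      exact hv (h ▸ (mem_act.mp he).1)
    have h2 : (act a b W).filter (fun e => b e = v) = ∅ := by
      apply Finset.filter_eq_empty_iff.mpr
      intro e he h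
      exact hv (h ▸ (mem_act.mp he).2)
    rw [h1, h2]; simp

lemma YG_deg (a b : J × Bool → V) (W : Finset V) (D : ℕ)
    (hdeg : ∀ v ∈ W, ((act a b W).filter (fun e => a e = v)).card
      + ((act a b W).filter (fun e => b e = v)).card ≤ D) (y : YV V J) :
    ({y' | (YG a b W).Adj y y'} : Set (YV V J)).ncard ≤ D := by
  classical
  have hsub : ({y' | (YG a b W).Adj y y'} : Set (YV V J)) ⊆
      ((((act a b W).filter (fun e => a e = y.1)).image
          (fun e => ((b e, y.2 + Pi.single e 1) : YV V J)) ∪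
        ((act a b W).filter (fun e => b e = y.1)).image
          (fun e => ((a e, y.2 + Pi.single e 1) : YV V J)) : Finset (YV V J)) : Set (YV V J)) := by
    rintro y' ⟨e, ⟨h0, h1⟩, h2⟩
    rw [Finset.coe_union, Finset.coe_image, Finset.coe_image]
    rcases h1 with ⟨h1, h3⟩ | ⟨h1, h3⟩
    · left
      exact ⟨e, by simp [h0, h1], Prod.ext h3.symm h2.symm⟩
    · right
      exact ⟨e, by simp [h0, h1], Prod.ext h3.symm h2.symm⟩
  refine le_trans (Set.ncard_le_ncard hsub (Set.toFinite _)) ?_
  rw [Set.ncard_coe_finset]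
  refine le_trans (Finset.card_union_le _ _) ?_
  exact le_trans (add_le_add Finset.card_image_le Finset.card_image_le)
    (deg_bound a b W D hdeg y.1)

lemma XG_deg (a b : J × Bool → V) (W : Finset V) (D : ℕ)
    (hdeg : ∀ v ∈ W, ((act a b W).filter (fun e => a e = v)).card
      + ((act a b W).filter (fun e => b e = v)).card ≤ D) (x : XV V J) :
    ({x' | (XG a b W).Adj x x'} : Set (XV V J)).ncard ≤ D := by
  classical
  have hsub : ({x' | (XG a b W).Adj x x'} : Set (XV V J)) ⊆
      ((((act a b W).filter (fun e => a e = x.1)).image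
          (fun e => ((b e, x.2.1 + Pi.single e 1, x.2.2 + tau e x.2.1) : XV V J)) ∪
        ((act a b W).filter (fun e => b e = x.1)).image
          (fun e => ((a e, x.2.1 + Pi.single e 1, x.2.2 + tau e x.2.1) : XV V J))
            : Finset (XV V J)) : Set (XV V J)) := by
    rintro x' ⟨e, ⟨h0, h1⟩, h2, h2'⟩
    rw [Finset.coe_union, Finset.coe_image, Finset.coe_image]
    rcases h1 with ⟨h1, h3⟩ | ⟨h1, h3⟩
    · left
      exact ⟨e, by simp [h0, h1], Prod.ext h3.symm (Prod.ext h2.symm h2'.symm)⟩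
    · right
      exact ⟨e, by simp [h0, h1], Prod.ext h3.symm (Prod.ext h2.symm h2'.symm)⟩
  refine le_trans (Set.ncard_le_ncard hsub (Set.toFinite _)) ?_
  rw [Set.ncard_coe_finset]
  refine le_trans (Finset.card_union_le _ _) ?_
  exact le_trans (add_le_add Finset.card_image_le Finset.card_image_le)
    (deg_bound a b W D hdeg x.1)

lemma tele (f : ℕ → ZMod 2) (i : ℕ) : ∀ d : ℕ,
    ∑ k ∈ Finset.Ico i (i + d), (f k + f (k + 1)) = f i + f (i + d) := by
  intro d
  induction d with
  | zero => simp [add_self2]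
  | succ d ih =>
    rw [← add_assoc, Finset.sum_Ico_succ_top (by omega), ih]
    have : f (i + d) + f (i + d) = 0 := add_self2 _
    linear_combination this

/-- the two lifts of a point of the homology cover are far apart -/
theorem far_apart (a b : J × Bool → V) (W : Finset V) (m : ℕ)
    (hg : ∀ T ⊆ act a b W, T.Nonempty → T.card ≤ m → ∃ v, bdry a b T v ≠ 0)
    (v : V) (S : J × Bool → ZMod 2) (z z' : ZMod 2) (hz : z ≠ z') :
    ¬ (XG a b W).edist (v, S, z) (v, S, z') ≤ (m : ℕ) := by
  classical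
  intro hle
  have hne : (XG a b W).edist (v, S, z) (v, S, z') ≠ ⊤ :=
    ne_top_of_le_ne_top (ENat.coe_ne_top m) hle
  obtain ⟨p0, hp0⟩ := SimpleGraph.exists_walk_of_edist_ne_top hne
  set p := p0.bypass with hp
  have hpath : p.IsPath := p0.bypass_isPath
  have hlen : p.length ≤ m := by
    have h1 : p.length ≤ p0.length := p0.length_bypass_le
    rw [← hp0] at hle
    have h2 : p0.length ≤ m := by exact_mod_cast hle
    omega
  set L := p.length with hL
  set x : ℕ → XV V J := fun i => p.getVert i with hx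
  have hx0 : x 0 = (v, S, z) := p.getVert_zero
  have hxL : x L = (v, S, z') := p.getVert_length
  have hLpos : 0 < L := by
    by_contra h
    have h0 : L = 0 := by omega
    rw [h0, hx0] at hxL
    simp only [Prod.mk.injEq, true_and] at hxL
    exact hz hxL
  have hinj : ∀ i j, i ≤ L → j ≤ L → x i = x j → i = j := by
    intro i j hi hj hij
    exact hpath.getVert_injOn hi hj hij
  have hadj : ∀ i, ∃ e, i < L → (Joins a b W e (x i).1 (x (i + 1)).1 ∧
      (x (i + 1)).2.1 = (x i).2.1 + Pi.single e 1 ∧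
      (x (i + 1)).2.2 = (x i).2.2 + tau e (x i).2.1) := by
    intro i
    by_cases hi : i < L
    · obtain ⟨e, he⟩ := p.adj_getVert_succ hi
      exact ⟨e, fun _ => he⟩
    · obtain ⟨e, he⟩ := p.adj_getVert_succ hLpos
      exact ⟨e, fun h => absurd h hi⟩
  choose e he using hadj
  set P : ℕ → V := fun i => (x i).1 with hP
  have hexj : ∃ j, j ≤ L ∧ ∃ i, i < j ∧ P i = P j :=
    ⟨L, le_refl _, 0, hLpos, by simp only [hP]; rw [hx0, hxL]⟩
  obtain ⟨j, ⟨hjL, i, hij, hPij⟩, hmin⟩ : ∃ j, (j ≤ L ∧ ∃ i, i < j ∧ P i = P j) ∧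
      ∀ j' < j, ¬ (j' ≤ L ∧ ∃ i, i < j' ∧ P i = P j') :=
    ⟨Nat.find hexj, Nat.find_spec hexj, fun j' hj' => Nat.find_min hexj hj'⟩
  have hdist : ∀ k k', k < k' → k' < j → P k ≠ P k' := by
    intro k k' hk hk' heq
    exact hmin k' hk' ⟨by omega, k, hk, heq⟩
  -- the edges are distinct
  have hlt : ∀ k k', k < k' → k' < j → e k ≠ e k' := by
    intro k k' hk hk' heq
    obtain ⟨⟨_, h1⟩, h2, h3⟩ := he k (by omega)
    obtain ⟨⟨_, h1'⟩, h2', h3'⟩ := he k' (by omega)
    have hne1 := hdist k k' hk hk'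
    simp only [hP] at hne1
    rw [← heq] at h1'
    -- P k' = P (k+1)
    have hk1 : (x k').1 = (x (k + 1)).1 := by
      rcases h1 with ⟨h1, h4⟩ | ⟨h1, h4⟩ <;> rcases h1' with ⟨h1', h4'⟩ | ⟨h1', h4'⟩
      · exact absurd (h1.trans h1'.symm) hne1
      · rw [h1', h4]
      · rw [h1', h4]
      · exact absurd (h1.trans h1'.symm) hne1
    have hk2 : k' = k + 1 := by
      by_contra hne2
      exact hdist (k + 1) k' (by omega) hk' (by simp only [hP]; exact hk1.symm)
    subst hk2
    have hk3 : (x (k + 1 + 1)).1 = (x k).1 := by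
      rcases h1 with ⟨h1, h4⟩ | ⟨h1, h4⟩ <;> rcases h1' with ⟨h1', h4'⟩ | ⟨h1', h4'⟩
      · exact absurd (h1.trans h1'.symm) hne1
      · rw [h4', h1]
      · rw [h4', h1]
      · exact absurd (h1.trans h1'.symm) hne1
    have hk4 : x (k + 1 + 1) = x k := by
      apply Prod.ext hk3
      apply Prod.ext
      · rw [h2', ← heq, h2, add_single_twice]
      · rw [h3', ← heq, h2, tau_add, h3, add_assoc, add_self2, add_zero]
    have := hinj _ _ (by omega) (by omega) hk4
    omega
  have heinj : Set.InjOn e (Finset.Ico i j : Set ℕ) := by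
    intro k hk k' hk' heq
    rw [Finset.coe_Ico, Set.mem_Ico] at hk hk'
    by_contra hne1
    rcases Nat.lt_or_gt_of_ne hne1 with h | h
    · exact hlt k k' h hk'.2 heq
    · exact hlt k' k h hk.2 heq.symm
  set T : Finset (J × Bool) := (Finset.Ico i j).image e with hT
  have hTact : T ⊆ act a b W := by
    intro f hf
    rw [hT, Finset.mem_image] at hf
    obtain ⟨k, hk, rfl⟩ := hf
    rw [Finset.mem_Ico] at hk
    exact (he k (by omega)).1.1
  have hTne : T.Nonempty := ⟨e i, Finset.mem_image_of_mem e (Finset.mem_Ico.mpr ⟨le_refl _, hij⟩)⟩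
  have hTc : T.card ≤ m := by
    have h1 : T.card ≤ (Finset.Ico i j).card := Finset.card_image_le
    rw [Nat.card_Ico] at h1
    omega
  obtain ⟨u, hu⟩ := hg T hTact hTne hTc
  apply hu
  unfold bdry
  rw [hT, Finset.sum_image heinj]
  have h1 : ∀ k ∈ Finset.Ico i j, ((if a (e k) = u then (1 : ZMod 2) else 0)
      + (if b (e k) = u then 1 else 0))
      = (if P k = u then 1 else 0) + (if P (k + 1) = u then 1 else 0) := by
    intro k hk
    rw [Finset.mem_Ico] at hk
    obtain ⟨⟨_, h1⟩, _, _⟩ := he k (by omega)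
    simp only [hP]
    rcases h1 with ⟨h1, h4⟩ | ⟨h1, h4⟩
    · rw [h1, h4]
    · rw [h1, h4, add_comm]
  rw [Finset.sum_congr rfl h1]
  have h2 := tele (fun k => if P k = u then (1 : ZMod 2) else 0) i (j - i)
  have h3 : i + (j - i) = j := by omega
  rw [h3] at h2
  rw [h2, hPij, add_self2]

end Pool.Agent.H339R3.CE
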