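import Mathlib

/-!
Disjoint unions of finite graphs as uniformly locally finite metric spaces.
-/

namespace Pool.Agent.H339R3.CE
open Finset

section trunc
variable {Z : Type} (G : SimpleGraph Z) (m : ℕ)

/-- truncated graph distance -/
noncomputable def td (x y : Z) : ℕ := (min (G.edist x y) ((m + 1 : ℕ) : ℕ∞)).toNat

lemma td_coe (x y : Z) : ((td G m x y : ℕ) : ℕ∞) = min (G.edist x y) ((m + 1 : ℕ) : ℕ∞) := by
  unfold td
  apply ENat.coe_toNat
  exact ne_top_of_le_ne_top (ENat.coe_ne_top (m + 1)) (min_le_right _ _)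

lemma td_le (x y : Z) : td G m x y ≤ m + 1 := by
  have := td_coe G m x y
  have h2 : ((td G m x y : ℕ) : ℕ∞) ≤ ((m + 1 : ℕ) : ℕ∞) := by rw [this]; exact min_le_right _ _
  exact_mod_cast h2

lemma td_self (x : Z) : td G m x x = 0 := by
  have := td_coe G m x x
  rw [SimpleGraph.edist_self] at this
  have h2 : ((td G m x x : ℕ) : ℕ∞) = 0 := by rw [this]; simp
  exact_mod_cast h2

lemma td_comm (x y : Z) : td G m x y = td G m y x := by
  unfold td; rw [SimpleGraph.edist_comm]

lemma td_eq_zero {x y : Z} (h : td G m x y = 0) : x = y := by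
  have h1 := td_coe G m x y
  rw [h] at h1
  have h2 : G.edist x y = 0 := by
    rcases le_total (G.edist x y) ((m + 1 : ℕ) : ℕ∞) with h3 | h3
    · rw [min_eq_left h3] at h1; exact h1.symm
    · rw [min_eq_right h3] at h1
      exfalso
      have : (0 : ℕ) = m + 1 := by exact_mod_cast h1
      omega
  exact SimpleGraph.edist_eq_zero_iff.mp h2

lemma td_triangle (x y z : Z) : td G m x z ≤ td G m x y + td G m y z := by
  have h : ((td G m x z : ℕ) : ℕ∞) ≤ ((td G m x y + td G m y z : ℕ) : ℕ∞) := by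
    push_cast
    rw [td_coe, td_coe, td_coe]
    rcases le_total (G.edist x y) ((m + 1 : ℕ) : ℕ∞) with h1 | h1
    · rcases le_total (G.edist y z) ((m + 1 : ℕ) : ℕ∞) with h2 | h2
      · rw [min_eq_left h1, min_eq_left h2]
        exact le_trans (min_le_left _ _) (SimpleGraph.edist_triangle)
      · rw [min_eq_right h2]
        exact le_trans (min_le_right _ _) le_add_self
    · rw [min_eq_right h1]
      exact le_trans (min_le_right _ _) le_self_add
  exact_mod_cast h

lemma td_le_of_edist {x y : Z} {r : ℕ} (h : G.edist x y ≤ r) : td G m x y ≤ r := by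
  have h1 : ((td G m x y : ℕ) : ℕ∞) ≤ (r : ℕ∞) := by
    rw [td_coe]; exact le_trans (min_le_left _ _) h
  exact_mod_cast h1

lemma of_td_le {x y : Z} {r : ℕ} (h : td G m x y ≤ r) : G.edist x y ≤ r ∨ m + 1 ≤ r := by
  have h1 : ((td G m x y : ℕ) : ℕ∞) ≤ (r : ℕ∞) := by exact_mod_cast h
  rw [td_coe] at h1
  rcases min_le_iff.mp h1 with h2 | h2
  · left; exact h2
  · right; exact_mod_cast h2

end trunc

/-- the disjoint union of the vertex sets -/
structure Glue (Z : ℕ → Type) (G : ∀ m, SimpleGraph (Z m)) : Type where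
  /-- the index of the component -/
  idx : ℕ
  /-- the point -/
  pt : Z idx

variable {Z : ℕ → Type} {G : ∀ m, SimpleGraph (Z m)}

/-- the distance on the disjoint union -/
noncomputable def gd (p q : Glue Z G) : ℕ :=
  if h : p.idx = q.idx then td (G q.idx) q.idx (h ▸ p.pt) q.pt else max p.idx q.idx + 1

lemma gd_same (m : ℕ) (x y : Z m) :
    gd (⟨m, x⟩ : Glue Z G) (⟨m, y⟩ : Glue Z G) = td (G m) m x y := by
  unfold gd
  rw [dif_pos rfl]

lemma gd_diff {i j : ℕ} (h : i ≠ j) (x : Z i) (y : Z j) :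
    gd (⟨i, x⟩ : Glue Z G) (⟨j, y⟩ : Glue Z G) = max i j + 1 := by
  unfold gd
  rw [dif_neg h]

lemma gd_self (p : Glue Z G) : gd p p = 0 := by
  obtain ⟨m, x⟩ := p
  rw [gd_same, td_self]

lemma gd_comm (p q : Glue Z G) : gd p q = gd q p := by
  obtain ⟨i, x⟩ := p
  obtain ⟨j, y⟩ := q
  by_cases h : i = j
  · subst h
    rw [gd_same, gd_same, td_comm]
  · rw [gd_diff h, gd_diff (Ne.symm h), max_comm]

lemma gd_eq_zero {p q : Glue Z G} (h0 : gd p q = 0) : p = q := by
  obtain ⟨i, x⟩ := p
  obtain ⟨j, y⟩ := q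
  by_cases h : i = j
  · subst h
    rw [gd_same] at h0
    rw [td_eq_zero _ _ h0]
  · rw [gd_diff h] at h0
    omega

lemma gd_triangle (p q r : Glue Z G) : gd p r ≤ gd p q + gd q r := by
  obtain ⟨i, x⟩ := p
  obtain ⟨j, y⟩ := q
  obtain ⟨k, z⟩ := r
  by_cases h1 : i = j
  · subst h1
    by_cases h2 : i = k
    · subst h2
      rw [gd_same, gd_same, gd_same]
      exact td_triangle _ _ _ _ _
    · rw [gd_diff h2, gd_diff h2]
      omega
  · by_cases h2 : j = k
    · subst h2
      rw [gd_diff h1, gd_diff h1]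
      omega
    · rw [gd_diff h1, gd_diff h2]
      by_cases h3 : i = k
      · subst h3
        have := td_le (G i) i x z
        rw [gd_same]
        omega
      · rw [gd_diff h3]
        omega

noncomputable instance : MetricSpace (Glue Z G) where
  dist p q := (gd p q : ℝ)
  dist_self p := by simp [gd_self]
  dist_comm p q := by rw [gd_comm]
  dist_triangle p q r := by exact_mod_cast gd_triangle p q r
  eq_of_dist_eq_zero := by
    intro p q h
    exact gd_eq_zero (by exact_mod_cast h)

lemma dist_def (p q : Glue Z G) : dist p q = (gd p q : ℝ) := rfl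

/-- balls in graphs of bounded degree -/
lemma ball_card {Y : Type} [Fintype Y] (G : SimpleGraph Y) (D : ℕ)
    (hD : ∀ x : Y, ({y | G.Adj x y} : Set Y).ncard ≤ D) (x : Y) (r : ℕ) :
    ({y | G.edist x y ≤ r} : Set Y).ncard ≤ (D + 1) ^ r := by
  classical
  induction r with
  | zero =>
    have : ({y | G.edist x y ≤ (0 : ℕ)} : Set Y) = {x} := by
      ext y
      simp only [Set.mem_setOf_eq, Nat.cast_zero, nonpos_iff_eq_zero,
        SimpleGraph.edist_eq_zero_iff, Set.mem_singleton_iff]
      exact eq_comm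
    rw [this]; simp
  | succ r ih =>
    have hsub : ({y | G.edist x y ≤ (r + 1 : ℕ)} : Set Y) ⊆
        ⋃ z ∈ ({z | G.edist x z ≤ r} : Set Y), ({y | y = z ∨ G.Adj z y} : Set Y) := by
      intro y hy
      simp only [Set.mem_setOf_eq] at hy
      have hy' : G.edist y x ≤ (r + 1 : ℕ) := by rw [SimpleGraph.edist_comm]; exact hy
      have hne : G.edist y x ≠ ⊤ := ne_top_of_le_ne_top (ENat.coe_ne_top (r + 1)) hy'
      obtain ⟨p, hp⟩ := SimpleGraph.exists_walk_of_edist_ne_top hne
      rw [← hp] at hy'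
      have hlen : p.length ≤ r + 1 := by exact_mod_cast hy'
      simp only [Set.mem_iUnion, Set.mem_setOf_eq, exists_prop]
      cases p with
      | nil => exact ⟨x, by simp, Or.inl rfl⟩
      | cons h q =>
        rename_i z
        refine ⟨z, ?_, Or.inr h.symm⟩
        rw [SimpleGraph.edist_comm]
        refine le_trans (SimpleGraph.Walk.edist_le q) ?_
        simp only [SimpleGraph.Walk.length_cons] at hlen
        have : q.length ≤ r := by omega
        exact_mod_cast this
    have hone : ∀ z : Y, ({y | y = z ∨ G.Adj z y} : Set Y).ncard ≤ D + 1 := by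
      intro z
      have : ({y | y = z ∨ G.Adj z y} : Set Y) = insert z {y | G.Adj z y} := by
        ext y; simp
      rw [this]
      exact le_trans (Set.ncard_insert_le _ _) (by have := hD z; omega)
    set Sf : Finset Y := (Set.toFinite ({z | G.edist x z ≤ r} : Set Y)).toFinset with hSf
    have hSc : Sf.card ≤ (D + 1) ^ r := by
      rw [hSf, ← Set.ncard_eq_toFinset_card]; exact ih
    calc ({y | G.edist x y ≤ (r + 1 : ℕ)} : Set Y).ncard
        ≤ (⋃ z ∈ ({z | G.edist x z ≤ r} : Set Y), ({y | y = z ∨ G.Adj z y} : Set Y)).ncard :=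
          Set.ncard_le_ncard hsub (Set.toFinite _)
      _ = (⋃ z ∈ Sf, ({y | y = z ∨ G.Adj z y} : Set Y)).ncard := by
          congr 1
          ext y
          simp [hSf]
      _ = ((Sf.biUnion (fun z => (Set.toFinite ({y | y = z ∨ G.Adj z y} : Set Y)).toFinset)
            : Finset Y) : Set Y).ncard := by
          congr 1
          ext y
          simp
      _ = (Sf.biUnion (fun z => (Set.toFinite ({y | y = z ∨ G.Adj z y} : Set Y)).toFinset)).card :=
          Set.ncard_coe_finset _
      _ ≤ Sf.card * (D + 1) := by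
          apply Finset.card_biUnion_le_card_mul
          intro z _
          rw [← Set.ncard_eq_toFinset_card]
          exact hone z
      _ ≤ (D + 1) ^ r * (D + 1) := Nat.mul_le_mul_right _ hSc
      _ = (D + 1) ^ (r + 1) := by rw [pow_succ]

theorem glue_ulf [∀ m, Fintype (Z m)] (D : ℕ)
    (hD : ∀ m (x : Z m), ({y | (G m).Adj x y} : Set (Z m)).ncard ≤ D) (r : ℝ) :
    ∃ N : ℕ, ∀ p : Glue Z G, (Metric.closedBall p r).encard ≤ N := by
  classical
  set R := ⌊r⌋₊ with hR
  -- the small components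
  let B0 : Finset (Σ m, Z m) := (Finset.range (R + 1)).sigma (fun m => (univ : Finset (Z m)))
  let ι : (Σ m, Z m) → Glue Z G := fun s => ⟨s.1, s.2⟩
  let B : Set (Glue Z G) := ι '' (B0 : Set (Σ m, Z m))
  have hmemB : ∀ j (y : Z j), j ≤ R → (⟨j, y⟩ : Glue Z G) ∈ B := by
    intro j y hj
    refine ⟨⟨j, y⟩, ?_, rfl⟩
    simp only [B0, Finset.coe_sigma, Set.mem_sigma_iff, Finset.coe_range, Set.mem_Iio,
      Finset.coe_univ, Set.mem_univ, and_true]
    omega
  have hBc : B.encard ≤ ((B0.card : ℕ) : ℕ∞) := by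
    refine le_trans (Set.encard_image_le _ _) ?_
    rw [Set.encard_coe_eq_coe_finsetCard]
  refine ⟨(D + 1) ^ R + B0.card, ?_⟩
  intro p
  obtain ⟨m, x⟩ := p
  let A : Set (Glue Z G) := (fun y : Z m => (⟨m, y⟩ : Glue Z G)) '' {y | (G m).edist x y ≤ R}
  have hsub : Metric.closedBall (⟨m, x⟩ : Glue Z G) r ⊆ A ∪ B := by
    intro q hq
    obtain ⟨j, y⟩ := q
    have hq' : dist (⟨m, x⟩ : Glue Z G) (⟨j, y⟩ : Glue Z G) ≤ r := by
      rw [dist_comm]; exact hq
    rw [dist_def] at hq'
    have hr0 : 0 ≤ r := le_trans (Nat.cast_nonneg _) hq'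
    have hgd : gd (⟨m, x⟩ : Glue Z G) (⟨j, y⟩ : Glue Z G) ≤ R := (Nat.le_floor_iff hr0).mpr hq'
    by_cases h : m = j
    · subst h
      rw [gd_same] at hgd
      rcases of_td_le (G m) m hgd with h1 | h1
      · left
        exact ⟨y, h1, rfl⟩
      · right
        exact hmemB m y (by omega)
    · rw [gd_diff h] at hgd
      right
      exact hmemB j y (by omega)
  have hA : A.encard ≤ (((D + 1) ^ R : ℕ) : ℕ∞) := by
    have h1 : A.encard ≤ ({y | (G m).edist x y ≤ R} : Set (Z m)).encard := Set.encard_image_le _ _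
    have h2 := ball_card (G m) D (hD m) x R
    have h3 : ({y | (G m).edist x y ≤ R} : Set (Z m)).encard
        = ((({y | (G m).edist x y ≤ R} : Set (Z m)).ncard : ℕ) : ℕ∞) :=
      (Set.Finite.cast_ncard_eq (Set.toFinite _)).symm
    rw [h3] at h1
    exact le_trans h1 (by exact_mod_cast h2)
  calc (Metric.closedBall (⟨m, x⟩ : Glue Z G) r).encard
      ≤ (A ∪ B).encard := Set.encard_le_encard hsub
    _ ≤ A.encard + B.encard := Set.encard_union_le _ _
    _ ≤ (((D + 1) ^ R : ℕ) : ℕ∞) + ((B0.card : ℕ) : ℕ∞) := add_le_add hA hBc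
    _ = (((D + 1) ^ R + B0.card : ℕ) : ℕ∞) := by push_cast; rfl

end Pool.Agent.H339R3.CE
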