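import Mathlib
import Pool.Agent.H339R3.CE.Rand2

/-!
Existence of expanding graphs of bounded degree without short even edge sets.
-/

namespace Pool.Agent.H339R3.CE
open Finset

lemma exists_omega (k n g : ℕ) (hk : 1 ≤ k) (hn : 2 ≤ n) :
    ∃ ω : Ed n (4 * k) → Fin n, P1 n (4 * k) k ω ∧ P2 n (4 * k) ω ∧
      (shorts ω g).card < 4 * (KK (4 * k) g + 1) := by
  classical
  by_contra hcon
  push Not at hcon
  set E := Ed n (4 * k) with hE
  have hn0 : 0 < n := by omega
  have hnR : (0 : ℝ) < n := by exact_mod_cast hn0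
  set N : ℝ := (n : ℝ) ^ Fintype.card (Ed n (4 * k)) with hN
  have hNpos : 0 < N := by positivity
  have c1 := count_P1 n k hn0
  have c2 := count_P2 n (4 * k) hn0 (by omega)
  set K := KK (4 * k) g + 1 with hK
  have c3 : ((univ.filter (fun ω : E → Fin n => 4 * K ≤ (shorts ω g).card)).card : ℝ) * 4
      ≤ N := by
    have h1 : (univ.filter (fun ω : E → Fin n => 4 * K ≤ (shorts ω g).card)).card * (4 * K)
        ≤ ∑ ω : E → Fin n, (shorts ω g).card := by
      rw [← smul_eq_mul]
      calc (univ.filter (fun ω : E → Fin n => 4 * K ≤ (shorts ω g).card)).card • (4 * K)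
          ≤ ∑ ω ∈ univ.filter (fun ω : E → Fin n => 4 * K ≤ (shorts ω g).card),
            (shorts ω g).card :=
            Finset.card_nsmul_le_sum _ _ _ (fun ω hω => (Finset.mem_filter.mp hω).2)
        _ ≤ _ := Finset.sum_le_sum_of_subset (Finset.filter_subset _ _)
    have h2 := sum_shorts (n := n) (q := 4 * k) (g := g) hn0
    have h3 : (univ.filter (fun ω : E → Fin n => 4 * K ≤ (shorts ω g).card)).card * (4 * K)
        ≤ K * n ^ Fintype.card (Ed n (4 * k)) := by
      refine le_trans h1 (le_trans h2 (Nat.mul_le_mul_right _ (Nat.le_succ _)))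
    have h4 : ((univ.filter (fun ω : E → Fin n => 4 * K ≤ (shorts ω g).card)).card * 4) * K
        ≤ (n ^ Fintype.card (Ed n (4 * k))) * K := by
      nlinarith
    have h5 := Nat.le_of_mul_le_mul_right h4 (by omega)
    rw [hN]
    exact_mod_cast h5
  have hcov : (univ : Finset (E → Fin n)) ⊆
      (univ.filter (fun ω : E → Fin n => ¬ P1 n (4 * k) k ω)) ∪
      ((univ.filter (fun ω : E → Fin n => ¬ P2 n (4 * k) ω)) ∪
        (univ.filter (fun ω : E → Fin n => 4 * K ≤ (shorts ω g).card))) := by
    intro ω _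
    simp only [Finset.mem_union, Finset.mem_filter, Finset.mem_univ, true_and]
    by_cases h1 : P1 n (4 * k) k ω
    · by_cases h2 : P2 n (4 * k) ω
      · right; right; exact hcon ω h1 h2
      · right; left; exact h2
    · left; exact h1
  have h1 := Finset.card_le_card hcov
  have h2 := Finset.card_union_le (univ.filter (fun ω : E → Fin n => ¬ P1 n (4 * k) k ω))
      ((univ.filter (fun ω : E → Fin n => ¬ P2 n (4 * k) ω)) ∪
        (univ.filter (fun ω : E → Fin n => 4 * K ≤ (shorts ω g).card)))
  have h3 := Finset.card_union_le (univ.filter (fun ω : E → Fin n => ¬ P2 n (4 * k) ω))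
        (univ.filter (fun ω : E → Fin n => 4 * K ≤ (shorts ω g).card))
  have h4 : (univ : Finset (E → Fin n)).card = n ^ Fintype.card (Ed n (4 * k)) := by
    rw [Finset.card_univ, Fintype.card_fun, Fintype.card_fin]
  have h5 : (univ : Finset (E → Fin n)).card ≤
      (univ.filter (fun ω : E → Fin n => ¬ P1 n (4 * k) k ω)).card +
      ((univ.filter (fun ω : E → Fin n => ¬ P2 n (4 * k) ω)).card +
        (univ.filter (fun ω : E → Fin n => 4 * K ≤ (shorts ω g).card)).card) := by omega
  have h6 : N ≤ ((univ.filter (fun ω : E → Fin n => ¬ P1 n (4 * k) k ω)).card : ℝ) +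
      (((univ.filter (fun ω : E → Fin n => ¬ P2 n (4 * k) ω)).card : ℝ) +
        ((univ.filter (fun ω : E → Fin n => 4 * K ≤ (shorts ω g).card)).card : ℝ)) := by
    rw [h4] at h5
    rw [hN]
    exact_mod_cast h5
  have h7 : (1 / 2 : ℝ) ^ n ≤ 1 / 4 := by
    calc (1 / 2 : ℝ) ^ n ≤ (1 / 2) ^ 2 := pow_le_pow_of_le_one (by norm_num) (by norm_num) hn
      _ = 1 / 4 := by norm_num
  have h8 : (1 / 2 : ℝ) ^ n * N ≤ 1 / 4 * N := mul_le_mul_of_nonneg_right h7 hNpos.le
  linarith

lemma exists_omega' (q k n g : ℕ) (hq : q = 4 * k) (hk : 1 ≤ k) (hn : 2 ≤ n) :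
    ∃ ω : Ed n q → Fin n, P1 n q k ω ∧ P2 n q ω ∧
      (shorts ω g).card < 4 * (KK q g + 1) := by
  subst hq
  exact exists_omega k n g hk hn

lemma large_exp (n q k : ℕ) (ω : Ed n q → Fin n) (h1 : P1 n q k ω) (A C : Finset (Fin n))
    (hC : n ≤ 4 * C.card) :
    k * A.card < n + k * (univ.filter (fun e : Ed n q => tl e ∈ A ∧ ω e ∈ C)).card := by
  classical
  set Ec := univ.filter (fun e : Ed n q => tl e ∈ A ∧ ω e ∈ C) with hEc
  set A' := A \ Ec.image tl with hA'
  have h2 : k * A'.card < n := by
    by_contra hcon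
    push Not at hcon
    obtain ⟨e, he1, he2⟩ := h1 A' C hcon hC
    have he1' : tl e ∈ A' := he1
    rw [hA', Finset.mem_sdiff] at he1'
    apply he1'.2
    exact Finset.mem_image_of_mem tl (Finset.mem_filter.mpr ⟨Finset.mem_univ _, he1'.1, he2⟩)
  have h3 : A.card ≤ A'.card + Ec.card := by
    have e1 : A ⊆ A' ∪ Ec.image tl := by
      intro v hv
      rw [Finset.mem_union, hA', Finset.mem_sdiff]
      by_cases h : v ∈ Ec.image tl
      · right; exact h
      · left; exact ⟨hv, h⟩
    calc A.card ≤ (A' ∪ Ec.image tl).card := Finset.card_le_card e1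
      _ ≤ A'.card + (Ec.image tl).card := Finset.card_union_le _ _
      _ ≤ A'.card + Ec.card := by
          have : (Ec.image tl).card ≤ Ec.card := Finset.card_image_le
          omega
  nlinarith

/-- boundary edges inside `W` -/
abbrev bd {n q : ℕ} (ω : Ed n q → Fin n) (W A : Finset (Fin n)) : Finset (Ed n q) :=
  (act tl ω W).filter (fun e => ¬ (tl e ∈ A ↔ ω e ∈ A))

/-- degree bound -/
@[irreducible] def DD : ℕ := 2 * 1024 + 2048 * 256

lemma DD_eq : DD = 2 * 1024 + 2048 * 256 := by unfold DD; rfl

lemma kap_aux (D x : ℝ) (h : 0 < 1 + 4 * D) :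
    1 / (8 * (1 + 4 * D)) * (1 + 4 * D) * x = x / 8 := by
  field_simp

/-- small constant -/
noncomputable def kap : ℝ := 1 / (8 * (1 + 4 * (DD : ℝ)))

theorem exists_graph (g : ℕ) : ∃ (n : ℕ) (ω : Ed n 1024 → Fin n) (W : Finset (Fin n)) (k : ℕ),
    W.Nonempty ∧ n ≤ 2 * W.card ∧
    (∀ v ∈ W, ((act tl ω W).filter (fun e => tl e = v)).card
      + ((act tl ω W).filter (fun e => ω e = v)).card ≤ DD) ∧
    (∀ A ⊆ W, 2 * A.card ≤ W.card →
      A.card ≤ 4 * ((act tl ω W).filter (fun e => ¬ (tl e ∈ A ↔ ω e ∈ A))).card) ∧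
    kap * (1 + 4 * (DD : ℝ)) * W.card ≤ k ∧
    (∀ (_ : DecidablePred (Bad tl ω W k)),
      2 * ((univ.filter (fun s : Ed n 1024 → ZMod 2 => Bad tl ω W k s)).card : ℝ)
        ≤ 2 ^ Fintype.card (Fin n × Fin 1024)) ∧
    (∀ T ⊆ act tl ω W, T.Nonempty → T.card ≤ g → ∃ v, bdry tl ω T v ≠ 0) := by
  classical
  obtain ⟨K, hK⟩ : ∃ K, K = KK 1024 g + 1 := ⟨_, rfl⟩
  obtain ⟨n, hn⟩ : ∃ n, n = 1024 * K := ⟨_, rfl⟩
  have hK1 : 1 ≤ K := by omega
  obtain ⟨ω, h1, h2, h3⟩ := exists_omega' 1024 256 n g (by norm_num) (by norm_num) (by omega)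
  rw [← hK] at h3
  -- removed vertices
  set High : Finset (Fin n) := univ.filter (fun v =>
    2048 * 256 ≤ (univ.filter (fun e : Ed n 1024 => ω e = v)).card) with hHigh
  have hHc : 256 * High.card ≤ n := by
    have e1 : High.card * (2048 * 256) ≤ Fintype.card (Ed n 1024) := by
      calc High.card * (2048 * 256)
          = High.card • (2048 * 256) := by rw [smul_eq_mul]
        _ ≤ ∑ v ∈ High, (univ.filter (fun e : Ed n 1024 => ω e = v)).card :=
          Finset.card_nsmul_le_sum _ _ _ (fun v hv => (Finset.mem_filter.mp hv).2)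
        _ ≤ ∑ v : Fin n, (univ.filter (fun e : Ed n 1024 => ω e = v)).card :=
          Finset.sum_le_sum_of_subset (Finset.subset_univ _)
        _ = Fintype.card (Ed n 1024) := by
          rw [← Finset.card_univ]
          exact (Finset.card_eq_sum_card_fiberwise (fun e _ => by simp)).symm
    rw [card_Ed] at e1
    omega
  have hsh : ∀ T ∈ shorts ω g, T.Nonempty := by
    intro T hT
    simp only [shorts, Finset.mem_filter, Finset.mem_univ, true_and] at hT
    exact hT.1
  set R : Finset (Fin n) := (shorts ω g).attach.image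
    (fun T => tl (hsh T.1 T.2).choose) with hR
  have hRc : 256 * R.card ≤ n := by
    have e1 : R.card ≤ (shorts ω g).card := by
      calc R.card ≤ (shorts ω g).attach.card := Finset.card_image_le
        _ = (shorts ω g).card := Finset.card_attach
    omega
  set W0 : Finset (Fin n) := univ \ (High ∪ R) with hW0
  have hW0c : 127 * n ≤ 128 * W0.card := by
    have e1 : W0.card + (High ∪ R).card = n := by
      have := Finset.card_sdiff_add_card_eq_card (Finset.subset_univ (High ∪ R))
      rw [Finset.card_univ, Fintype.card_fin] at this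
      exact this
    have e2 := Finset.card_union_le High R
    omega
  have hW0n : W0.card ≤ n := by simpa using Finset.card_le_univ W0
  -- pruning
  have hne : (W0.powerset.filter (fun B => 4 * (bd ω W0 B).card ≤ B.card ∧
      2 * B.card ≤ W0.card)).Nonempty := by
    refine ⟨∅, ?_⟩
    rw [Finset.mem_filter]
    refine ⟨Finset.empty_mem_powerset _, ?_, by simp⟩
    have : bd ω W0 ∅ = ∅ := by
      apply Finset.filter_eq_empty_iff.mpr
      intro e _
      simp
    rw [this]; simp
  obtain ⟨B, hB, hBmax⟩ := Finset.exists_max_image _ Finset.card hne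
  rw [Finset.mem_filter, Finset.mem_powerset] at hB
  obtain ⟨hBW, hBb, hB2⟩ := hB
  have hLS : ∀ A C : Finset (Fin n), A ⊆ W0 → C ⊆ W0 → Disjoint A C → ∀ W' : Finset (Fin n),
      A ⊆ W' → C ⊆ W' → n ≤ 4 * C.card → 256 * A.card < n + 256 * (bd ω W' A).card := by
    intro A C hA hC hAC W' hAW' hCW' hCn
    have e1 := large_exp n 1024 256 ω h1 A C hCn
    have e2 : (univ.filter (fun e : Ed n 1024 => tl e ∈ A ∧ ω e ∈ C)).card
        ≤ (bd ω W' A).card := by
      apply Finset.card_le_card
      intro e he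
      simp only [Finset.mem_filter, Finset.mem_univ, true_and] at he
      rw [Finset.mem_filter, mem_act]
      refine ⟨⟨hAW' he.1, hCW' he.2⟩, ?_⟩
      intro hiff
      exact Finset.disjoint_left.mp hAC (hiff.mp he.1) he.2
    omega
  have hBsmall : 192 * B.card < n := by
    have e1 : (W0 \ B).card + B.card = W0.card := Finset.card_sdiff_add_card_eq_card hBW
    have e2 := hLS B (W0 \ B) hBW Finset.sdiff_subset Finset.disjoint_sdiff W0 hBW
      Finset.sdiff_subset (by omega)
    omega
  set W : Finset (Fin n) := W0 \ B with hW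
  have hWW0 : W ⊆ W0 := Finset.sdiff_subset
  have hWc : W.card + B.card = W0.card := Finset.card_sdiff_add_card_eq_card hBW
  have hWn : W.card ≤ n := by omega
  have hWcompl : Wᶜ.card + W.card = n := by
    rw [Finset.card_compl, Fintype.card_fin]; omega
  have hW64 : 64 * Wᶜ.card ≤ n := by omega
  refine ⟨n, ω, W, n / 4, ?_, ?_, ?_, ?_, ?_, ?_, ?_⟩
  · apply Finset.card_pos.mp; omega
  · omega
  · -- degrees
    intro v hv
    have hvH : v ∉ High := by
      have := hWW0 hv
      rw [hW0, Finset.mem_sdiff, Finset.mem_union] at this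
      tauto
    have e1 : ((act tl ω W).filter (fun e => tl e = v)).card ≤ 2 * 1024 := by
      calc ((act tl ω W).filter (fun e => tl e = v)).card
          ≤ (univ.filter (fun e : Ed n 1024 => e.1.1 ∈ ({v} : Finset (Fin n)))).card := by
            apply Finset.card_le_card
            intro e he
            rw [Finset.mem_filter] at he ⊢
            exact ⟨Finset.mem_univ _, Finset.mem_singleton.mpr he.2⟩
        _ = 2 * 1024 := by rw [card_tail]; simp
    have e2 : ((act tl ω W).filter (fun e => ω e = v)).card ≤ 2048 * 256 := by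
      calc ((act tl ω W).filter (fun e => ω e = v)).card
          ≤ (univ.filter (fun e : Ed n 1024 => ω e = v)).card := by
            apply Finset.card_le_card
            exact Finset.filter_subset_filter _ (Finset.subset_univ _)
        _ ≤ 2048 * 256 := by
            rw [hHigh, Finset.mem_filter] at hvH
            push Not at hvH
            exact (hvH (Finset.mem_univ _)).le
    rw [DD_eq]
    omega
  · -- expansion
    intro A hAW hA2
    by_contra hcon
    have hcon' : 4 * (bd ω W A).card < A.card := not_le.mp hcon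
    have hAB : Disjoint A B := by
      rw [Finset.disjoint_left]
      intro v hvA hvB
      have := hAW hvA
      rw [hW, Finset.mem_sdiff] at this
      exact this.2 hvB
    have hcAB : (A ∪ B).card = A.card + B.card := Finset.card_union_of_disjoint hAB
    have hABW : A ∪ B ⊆ W0 := Finset.union_subset (hAW.trans hWW0) hBW
    have hbd : (bd ω W0 (A ∪ B)).card ≤ (bd ω W0 B).card + (bd ω W A).card := by
      refine le_trans (Finset.card_le_card ?_) (Finset.card_union_le _ _)
      intro e he
      rw [Finset.mem_filter, mem_act] at he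
      obtain ⟨⟨ha, hb⟩, hne⟩ := he
      rw [Finset.mem_union, Finset.mem_union] at hne
      rw [Finset.mem_union, Finset.mem_filter, Finset.mem_filter, mem_act, mem_act]
      by_cases p : tl e ∈ B
      · by_cases q : ω e ∈ B
        · exact absurd (iff_of_true (Or.inr p) (Or.inr q)) hne
        · left; exact ⟨⟨ha, hb⟩, fun h => q (h.mp p)⟩
      · by_cases q : ω e ∈ B
        · left; exact ⟨⟨ha, hb⟩, fun h => p (h.mpr q)⟩
        · right
          refine ⟨⟨Finset.mem_sdiff.mpr ⟨ha, p⟩, Finset.mem_sdiff.mpr ⟨hb, q⟩⟩,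
            fun h => hne ?_⟩
          constructor
          · rintro (h' | h')
            · exact Or.inl (h.mp h')
            · exact absurd h' p
          · rintro (h' | h')
            · exact Or.inl (h.mpr h')
            · exact absurd h' q
    by_cases hsz : 2 * (A ∪ B).card ≤ W0.card
    · have hmem : A ∪ B ∈ W0.powerset.filter (fun B => 4 * (bd ω W0 B).card ≤ B.card ∧
          2 * B.card ≤ W0.card) := by
        rw [Finset.mem_filter, Finset.mem_powerset]
        exact ⟨hABW, by omega, hsz⟩
      have := hBmax _ hmem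
      omega
    · have e1 : (W \ A).card + A.card = W.card := Finset.card_sdiff_add_card_eq_card hAW
      have e2 := hLS A (W \ A) (hAW.trans hWW0) (Finset.sdiff_subset.trans hWW0)
        Finset.disjoint_sdiff W hAW Finset.sdiff_subset (by omega)
      omega
  · -- kap
    unfold kap
    have hD0 : (0 : ℝ) ≤ (DD : ℝ) := Nat.cast_nonneg _
    have hDpos : (0 : ℝ) < 1 + 4 * (DD : ℝ) := by linarith
    rw [kap_aux _ _ hDpos]
    have e2 : W.card ≤ 8 * (n / 4) := by omega
    have e3 : (W.card : ℝ) ≤ 8 * ((n / 4 : ℕ) : ℝ) := by exact_mod_cast e2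
    linarith
  · -- bad signings
    intro _
    have hbc := bad_count tl ω W (n / 4)
    have hcE : Fintype.card (Ed n 1024) = 2048 * n := by rw [card_Ed]
    have hcJ : Fintype.card (Fin n × Fin 1024) = 1024 * n := by
      rw [Fintype.card_prod, Fintype.card_fin, Fintype.card_fin, mul_comm]
    have hin : Fintype.card (Ed n 1024) - (act tl ω W).card ≤ 544 * n := by
      have e1 : (univ : Finset (Ed n 1024)) ⊆ act tl ω W ∪
          (univ.filter (fun e : Ed n 1024 => e.1.1 ∈ Wᶜ) ∪
            univ.filter (fun e : Ed n 1024 => ω e ∈ Wᶜ)) := by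
        intro e _
        simp only [Finset.mem_union, mem_act, Finset.mem_filter, Finset.mem_univ, true_and,
          Finset.mem_compl]
        by_cases ha : tl e ∈ W
        · by_cases hb : ω e ∈ W
          · left; exact ⟨ha, hb⟩
          · right; right; exact hb
        · right; left; exact ha
      have e2 := Finset.card_le_card e1
      have e3 := Finset.card_union_le (act tl ω W)
        (univ.filter (fun e : Ed n 1024 => e.1.1 ∈ Wᶜ) ∪
            univ.filter (fun e : Ed n 1024 => ω e ∈ Wᶜ))
      have e4 := Finset.card_union_le (univ.filter (fun e : Ed n 1024 => e.1.1 ∈ Wᶜ))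
        (univ.filter (fun e : Ed n 1024 => ω e ∈ Wᶜ))
      have e5 : (univ.filter (fun e : Ed n 1024 => e.1.1 ∈ Wᶜ)).card = 2 * 1024 * Wᶜ.card :=
        card_tail n 1024 Wᶜ
      have e6 : 4 * (univ.filter (fun e : Ed n 1024 => ω e ∈ Wᶜ)).card < 2 * 1024 * n :=
        h2 Wᶜ hW64
      rw [Finset.card_univ] at e2
      omega
    rw [hcE] at hbc hin
    rw [Fintype.card_fin] at hbc
    rw [hcJ]
    have f1 : (16 : ℝ) ^ (n / 4) ≤ 2 ^ n := by
      have : (16 : ℝ) = 2 ^ 4 := by norm_num
      rw [this, ← pow_mul]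
      exact pow_le_pow_right₀ (by norm_num) (by omega)
    have f2 : (17 / 16 : ℝ) ^ (2048 * n) ≤ 2 ^ (256 * n) := by
      have : 2048 * n = 8 * (256 * n) := by ring
      rw [this, pow_mul]
      exact pow_le_pow_left₀ (by norm_num) (by norm_num) _
    have f3 : (2 : ℝ) ^ (2048 * n - (act tl ω W).card) ≤ 2 ^ (544 * n) :=
      pow_le_pow_right₀ (by norm_num) hin
    calc 2 * ((univ.filter (fun s : Ed n 1024 → ZMod 2 => Bad tl ω W (n / 4) s)).card : ℝ)
        ≤ 2 * (2 ^ n * 16 ^ (n / 4) * (17 / 16) ^ (2048 * n) *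
            2 ^ (2048 * n - (act tl ω W).card)) :=
          mul_le_mul_of_nonneg_left hbc (by norm_num)
      _ ≤ 2 * (2 ^ n * 2 ^ n * 2 ^ (256 * n) * 2 ^ (544 * n)) := by
          gcongr
      _ = 2 ^ (1 + (n + n + 256 * n + 544 * n)) := by
          rw [pow_add 2 1, pow_add, pow_add, pow_add]; ring
      _ ≤ 2 ^ (1024 * n) := pow_le_pow_right₀ (by norm_num) (by omega)
  · -- no short even sets
    intro T hT hTne hTg
    by_contra hcon
    push Not at hcon
    have hTs : T ∈ shorts ω g := by
      simp only [shorts, Finset.mem_filter, Finset.mem_univ, true_and]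
      exact ⟨hTne, hTg, hcon⟩
    have e1 : tl (hsh T hTs).choose ∈ R := by
      rw [hR, Finset.mem_image]
      exact ⟨⟨T, hTs⟩, Finset.mem_attach _ _, rfl⟩
    have e2 := (hsh T hTs).choose_spec
    have e3 := hWW0 (mem_act.mp (hT e2)).1
    rw [hW0, Finset.mem_sdiff, Finset.mem_union] at e3
    exact e3.2 (Or.inr e1)

end Pool.Agent.H339R3.CE
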