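import Mathlib
import Pool.Agent.H339R3.CE.Graphs

/-!
The Hamming embedding of the homology cover.
-/

namespace Pool.Agent.H339R3.CE
open Finset

variable {V J : Type} [Fintype V] [DecidableEq V] [Fintype J] [DecidableEq J]

/-- incidence coefficient -/
def inc (a b : J × Bool → V) (e : J × Bool) (u : V) : ZMod 2 :=
  (if a e = u then 1 else 0) + (if b e = u then 1 else 0)

/-- invariant of the component -/
def kp (a b : J × Bool → V) (W : Finset V) (y : YV V J) :
    (V → ZMod 2) × (J × Bool → ZMod 2) :=
  (fun u => (if y.1 = u then 1 else 0) + ∑ e ∈ act a b W, y.2 e * inc a b e u,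
   fun e => if e ∈ act a b W then 0 else y.2 e)

lemma kp_adj {a b : J × Bool → V} {W : Finset V} {y y' : YV V J} (h : (YG a b W).Adj y y') :
    kp a b W y = kp a b W y' := by
  obtain ⟨e, ⟨he, h1⟩, h2⟩ := h
  apply Prod.ext
  · funext u
    simp only [kp]
    have h3 : ∑ e' ∈ act a b W, y'.2 e' * inc a b e' u
        = ∑ e' ∈ act a b W, y.2 e' * inc a b e' u + inc a b e u := by
      rw [h2]
      have : ∀ e' ∈ act a b W, (y.2 + Pi.single e 1 : J × Bool → ZMod 2) e' * inc a b e' u
          = y.2 e' * inc a b e' u + (if e' = e then inc a b e' u else 0) := by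
        intro e' _
        rw [Pi.add_apply, add_mul]
        congr 1
        by_cases h : e' = e
        · subst h; simp
        · rw [Pi.single_eq_of_ne h, if_neg h, zero_mul]
      rw [Finset.sum_congr rfl this, Finset.sum_add_distrib, Finset.sum_ite_eq' , if_pos he]
    rw [h3]
    have h4 : (if y.1 = u then (1 : ZMod 2) else 0) = (if y'.1 = u then 1 else 0) + inc a b e u := by
      unfold inc
      rcases h1 with ⟨h1, h5⟩ | ⟨h1, h5⟩
      · rw [h1, h5]
        have := add_self2 (if b e = u then (1 : ZMod 2) else 0)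
        linear_combination -this
      · rw [h1, h5]
        have := add_self2 (if a e = u then (1 : ZMod 2) else 0)
        linear_combination -this
    rw [h4]; ring
  · funext e'
    simp only [kp]
    split_ifs with h
    · rfl
    · rw [h2, Pi.add_apply, Pi.single_eq_of_ne, add_zero]
      rintro rfl
      exact h he

/-- Hamming distance -/
def hd (S S' : J × Bool → ZMod 2) : ℕ := (univ.filter (fun e => S e ≠ S' e)).card

lemma hd_single (S : J × Bool → ZMod 2) (e : J × Bool) : hd S (S + Pi.single e 1) = 1 := by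
  unfold hd
  have : univ.filter (fun e' => S e' ≠ (S + Pi.single e 1 : J × Bool → ZMod 2) e') = {e} := by
    ext e'
    simp only [Finset.mem_filter, Finset.mem_univ, true_and, Finset.mem_singleton, Pi.add_apply]
    by_cases h : e' = e
    · subst h; simp
    · rw [Pi.single_eq_of_ne h]; simp [h]
  rw [this, Finset.card_singleton]

theorem edist_le_hd (a b : J × Bool → V) (W : Finset V) (m : ℕ)
    (hg : ∀ T ⊆ act a b W, T.Nonempty → T.card ≤ m → ∃ v, bdry a b T v ≠ 0) :
    ∀ (k : ℕ) (y y' : YV V J), kp a b W y = kp a b W y' → hd y.2 y'.2 = k → k ≤ m →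
      (YG a b W).edist y y' ≤ (k : ℕ) := by
  intro k
  induction k with
  | zero =>
    intro y y' hk hh _
    unfold hd at hh
    rw [Finset.card_eq_zero, Finset.filter_eq_empty_iff] at hh
    have hS : y.2 = y'.2 := by
      funext e
      have := hh (Finset.mem_univ e)
      push Not at this
      exact this
    have hv : y.1 = y'.1 := by
      have h1 := congrFun (congrArg Prod.fst hk) y.1
      simp only [kp, if_true, hS] at h1
      have h2 := add_right_cancel h1
      by_contra hne
      rw [if_neg (fun h => hne h.symm)] at h2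
      exact one_ne_zero h2
    have : y = y' := Prod.ext hv hS
    rw [this, SimpleGraph.edist_self]
    simp
  | succ k ih =>
    intro y y' hk hh hkm
    set T : Finset (J × Bool) := univ.filter (fun e => y.2 e ≠ y'.2 e) with hT
    have hTc : T.card = k + 1 := hh
    have hTact : T ⊆ act a b W := by
      intro e he
      rw [hT, Finset.mem_filter] at he
      by_contra hne
      have h1 := congrFun (congrArg Prod.snd hk) e
      simp only [kp, if_neg hne] at h1
      exact he.2 h1
    have hTne : T.Nonempty := Finset.card_pos.mp (by omega)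
    have hb : ∀ u, bdry a b T u = (if y.1 = u then 1 else 0) + (if y'.1 = u then 1 else 0) := by
      intro u
      have h1 := congrFun (congrArg Prod.fst hk) u
      simp only [kp] at h1
      have h2 : bdry a b T u = ∑ e ∈ act a b W, y.2 e * inc a b e u
          + ∑ e ∈ act a b W, y'.2 e * inc a b e u := by
        unfold bdry
        rw [← Finset.sum_add_distrib]
        have h3 : T = (act a b W).filter (fun e => y.2 e ≠ y'.2 e) := by
          ext e
          constructor
          · intro he
            exact Finset.mem_filter.mpr ⟨hTact he, (Finset.mem_filter.mp he).2⟩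
          · intro he
            exact Finset.mem_filter.mpr ⟨Finset.mem_univ _, (Finset.mem_filter.mp he).2⟩
        rw [h3, Finset.sum_filter]
        apply Finset.sum_congr rfl
        intro e _
        rw [← add_mul]
        unfold inc
        by_cases h4 : y.2 e = y'.2 e
        · rw [if_neg (not_not.mpr h4), h4, add_self2, zero_mul]
        · rw [if_pos h4]
          have h5 : y.2 e + y'.2 e = 1 := by
            rcases zm2 (y.2 e) with h6 | h6 <;> rcases zm2 (y'.2 e) with h7 | h7
            · exact absurd (h6.trans h7.symm) h4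
            · rw [h6, h7, zero_add]
            · rw [h6, h7, add_zero]
            · exact absurd (h6.trans h7.symm) h4
          rw [h5, one_mul]
      rw [h2]
      have e1 := add_self2 (if y.1 = u then (1 : ZMod 2) else 0)
      have e2 := add_self2 (∑ e ∈ act a b W, y'.2 e * inc a b e u)
      linear_combination h1 - e1 + e2
    have hne : y.1 ≠ y'.1 := by
      intro h
      obtain ⟨u, hu⟩ := hg T hTact hTne (by omega)
      apply hu
      rw [hb u, h, add_self2]
    have h1 : bdry a b T y.1 = 1 := by
      rw [hb, if_pos rfl, if_neg (fun h => hne h.symm), add_zero]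
    obtain ⟨e, heT, hinc⟩ : ∃ e ∈ T, inc a b e y.1 ≠ 0 := by
      by_contra hcon
      push Not at hcon
      have : bdry a b T y.1 = 0 := Finset.sum_eq_zero hcon
      rw [this] at h1
      exact zero_ne_one h1
    obtain ⟨w, hw⟩ : ∃ w, Joins a b W e y.1 w := by
      unfold inc at hinc
      by_cases ha : a e = y.1
      · exact ⟨b e, hTact heT, Or.inl ⟨ha.symm, rfl⟩⟩
      · by_cases hb' : b e = y.1
        · exact ⟨a e, hTact heT, Or.inr ⟨hb'.symm, rfl⟩⟩
        · rw [if_neg ha, if_neg hb', add_zero] at hinc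
          exact absurd rfl hinc
    let y1 : YV V J := (w, y.2 + Pi.single e 1)
    have hadj : (YG a b W).Adj y y1 := ⟨e, hw, rfl⟩
    have hk1 : kp a b W y1 = kp a b W y' := (kp_adj hadj).symm.trans hk
    have hh1 : hd y1.2 y'.2 = k := by
      unfold hd
      have hE : univ.filter (fun e' => y1.2 e' ≠ y'.2 e') = T.erase e := by
        ext e'
        simp only [Finset.mem_filter, Finset.mem_univ, true_and, Finset.mem_erase, hT, y1,
          Pi.add_apply]
        by_cases h : e' = e
        · subst h
          simp only [Pi.single_eq_same, ne_eq, not_true_eq_false, false_and, iff_false, not_not]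
          have h2 : y.2 e' ≠ y'.2 e' := (Finset.mem_filter.mp heT).2
          rcases zm2 (y.2 e') with h6 | h6 <;> rcases zm2 (y'.2 e') with h7 | h7
          · exact absurd (h6.trans h7.symm) h2
          · rw [h6, h7, zero_add]
          · rw [h6, h7, one_add_one2]
          · exact absurd (h6.trans h7.symm) h2
        · rw [Pi.single_eq_of_ne h, add_zero]
          simp [h]
      rw [hE, Finset.card_erase_of_mem heT, hTc]
      omega
    have h2 := ih y1 y' hk1 hh1 (by omega)
    have h3 : (YG a b W).edist y y1 ≤ 1 := by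
      rw [SimpleGraph.edist_eq_one_iff_adj.mpr hadj]
    calc (YG a b W).edist y y' ≤ (YG a b W).edist y y1 + (YG a b W).edist y1 y' :=
          SimpleGraph.edist_triangle
      _ ≤ 1 + (k : ℕ) := add_le_add h3 h2
      _ = ((k + 1 : ℕ) : ℕ∞) := by push_cast; rw [add_comm]

/-- the index set of the coordinates -/
abbrev Ix (V J : Type) : Type := (J × Bool) ⊕ ((V → ZMod 2) × (J × Bool → ZMod 2))

/-- the embedding of one component -/
noncomputable def psi (a b : J × Bool → V) (W : Finset V) (m : ℕ) (y : YV V J) :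
    EuclideanSpace ℝ (Ix V J) :=
  WithLp.toLp 2 (Sum.elim (fun e => if y.2 e = 0 then (0 : ℝ) else 1)
    (fun κ => if κ = kp a b W y then ((m : ℝ) + 1) else 0))

lemma psi_dist (a b : J × Bool → V) (W : Finset V) (m : ℕ) (y y' : YV V J) :
    ‖psi a b W m y - psi a b W m y'‖ ^ 2 = (hd y.2 y'.2 : ℝ) +
      ∑ κ, ((if κ = kp a b W y then ((m : ℝ) + 1) else 0)
        - (if κ = kp a b W y' then ((m : ℝ) + 1) else 0)) ^ 2 := by
  rw [EuclideanSpace.norm_sq_eq, Fintype.sum_sum_type]
  congr 1
  · unfold hd
    rw [Finset.card_filter]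
    push_cast
    apply Finset.sum_congr rfl
    intro e _
    simp only [psi, PiLp.sub_apply, Sum.elim_inl, Real.norm_eq_abs, sq_abs]
    rcases zm2 (y.2 e) with h6 | h6 <;> rcases zm2 (y'.2 e) with h7 | h7 <;> simp [h6, h7]
  · apply Finset.sum_congr rfl
    intro κ _
    simp only [psi, PiLp.sub_apply, Sum.elim_inr, Real.norm_eq_abs, sq_abs]

lemma psi_same (a b : J × Bool → V) (W : Finset V) (m : ℕ) (y y' : YV V J)
    (h : kp a b W y = kp a b W y') :
    ‖psi a b W m y - psi a b W m y'‖ ^ 2 = (hd y.2 y'.2 : ℝ) := by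
  rw [psi_dist, h]
  simp

lemma psi_diff (a b : J × Bool → V) (W : Finset V) (m : ℕ) (y y' : YV V J)
    (h : kp a b W y ≠ kp a b W y') :
    ((m : ℝ) + 1) ^ 2 ≤ ‖psi a b W m y - psi a b W m y'‖ ^ 2 := by
  rw [psi_dist]
  have h1 : ((m : ℝ) + 1) ^ 2 ≤ ∑ κ, ((if κ = kp a b W y then ((m : ℝ) + 1) else 0)
        - (if κ = kp a b W y' then ((m : ℝ) + 1) else 0)) ^ 2 := by
    have := Finset.single_le_sum (s := univ) (f := fun κ =>
      ((if κ = kp a b W y then ((m : ℝ) + 1) else 0)
        - (if κ = kp a b W y' then ((m : ℝ) + 1) else 0)) ^ 2)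
      (fun κ _ => sq_nonneg _) (Finset.mem_univ (kp a b W y))
    simp only [if_true, if_neg h, sub_zero] at this
    exact this
  have h2 : (0 : ℝ) ≤ (hd y.2 y'.2 : ℝ) := Nat.cast_nonneg _
  linarith

lemma psi_norm (a b : J × Bool → V) (W : Finset V) (m : ℕ) (y : YV V J) :
    (m : ℝ) + 1 ≤ ‖psi a b W m y‖ := by
  have h1 : ((m : ℝ) + 1) ^ 2 ≤ ‖psi a b W m y‖ ^ 2 := by
    rw [EuclideanSpace.norm_sq_eq, Fintype.sum_sum_type]
    have e1 : (0 : ℝ) ≤ ∑ e : J × Bool, ‖(psi a b W m y) (Sum.inl e)‖ ^ 2 :=
      Finset.sum_nonneg (fun _ _ => sq_nonneg _)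
    have e2 := Finset.single_le_sum (s := univ) (f := fun κ => ‖(psi a b W m y) (Sum.inr κ)‖ ^ 2)
      (fun κ _ => sq_nonneg _) (Finset.mem_univ (kp a b W y))
    have e3 : ‖(psi a b W m y) (Sum.inr (kp a b W y))‖ ^ 2 = ((m : ℝ) + 1) ^ 2 := by
      simp only [psi, Sum.elim_inr, if_true, Real.norm_eq_abs, sq_abs]
    simp only [e3] at e2
    linarith
  have h2 : (0 : ℝ) ≤ (m : ℝ) + 1 := by positivity
  exact (sq_le_sq₀ h2 (norm_nonneg _)).mp h1

lemma psi_adj {a b : J × Bool → V} {W : Finset V} (m : ℕ) {y y' : YV V J}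
    (h : (YG a b W).Adj y y') : ‖psi a b W m y - psi a b W m y'‖ ≤ 1 := by
  have h1 := psi_same a b W m y y' (kp_adj h)
  obtain ⟨e, _, h2⟩ := h
  rw [h2, hd_single] at h1
  have h3 := norm_nonneg (psi a b W m y - psi a b W m y')
  push_cast at h1
  nlinarith

lemma psi_walk {a b : J × Bool → V} {W : Finset V} (m : ℕ) {y y' : YV V J}
    (p : (YG a b W).Walk y y') : ‖psi a b W m y - psi a b W m y'‖ ≤ p.length := by
  induction p with
  | nil => simp
  | cons h q ih =>
    rename_i u v w
    rw [SimpleGraph.Walk.length_cons]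
    push_cast
    have h1 := psi_adj m h
    calc ‖psi a b W m u - psi a b W m w‖
        = ‖(psi a b W m u - psi a b W m v) + (psi a b W m v - psi a b W m w)‖ := by
          congr 1; abel
      _ ≤ ‖psi a b W m u - psi a b W m v‖ + ‖psi a b W m v - psi a b W m w‖ := norm_add_le _ _
      _ ≤ q.length + 1 := by linarith

lemma psi_edist {a b : J × Bool → V} {W : Finset V} (m : ℕ) {y y' : YV V J} {r : ℕ}
    (h : (YG a b W).edist y y' ≤ r) : ‖psi a b W m y - psi a b W m y'‖ ≤ r := by
  have hne : (YG a b W).edist y y' ≠ ⊤ := ne_top_of_le_ne_top (ENat.coe_ne_top r) h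
  obtain ⟨p, hp⟩ := SimpleGraph.exists_walk_of_edist_ne_top hne
  rw [← hp] at h
  have h1 : p.length ≤ r := by exact_mod_cast h
  refine le_trans (psi_walk m p) ?_
  exact_mod_cast h1

end Pool.Agent.H339R3.CE
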