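import Mathlib
import Pool.Agent.H339R3.CE.Rand3
import Pool.Agent.H339R3.CE.Metric
import Pool.Agent.H339R3.CE.YEmb

/-!
Assembly.
-/

namespace Pool.Agent.H339R3.CE
open Finset Filter

/-- The conclusion of `exists_graph` for one `g`. -/
structure GraphData (g : ℕ) where
  /-- number of vertices -/
  n : ℕ
  /-- heads -/
  ω : Ed n 1024 → Fin n
  /-- good vertices -/
  W : Finset (Fin n)
  /-- number of bad edges allowed -/
  k : ℕ
  hne : W.Nonempty
  hW : n ≤ 2 * W.card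
  hdeg : ∀ v ∈ W, ((act tl ω W).filter (fun e => tl e = v)).card
      + ((act tl ω W).filter (fun e => ω e = v)).card ≤ DD
  hexp : ∀ A ⊆ W, 2 * A.card ≤ W.card →
      A.card ≤ 4 * ((act tl ω W).filter (fun e => ¬ (tl e ∈ A ↔ ω e ∈ A))).card
  hk : kap * (1 + 4 * (DD : ℝ)) * W.card ≤ k
  hbad : ∀ (_ : DecidablePred (Bad tl ω W k)),
      2 * ((univ.filter (fun s : Ed n 1024 → ZMod 2 => Bad tl ω W k s)).card : ℝ)
        ≤ 2 ^ Fintype.card (Fin n × Fin 1024)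
  hg : ∀ T ⊆ act tl ω W, T.Nonempty → T.card ≤ g → ∃ v, bdry tl ω T v ≠ 0

lemma exists_data (g : ℕ) : Nonempty (GraphData g) := by
  obtain ⟨n, ω, W, k, h1, h2, h3, h4, h5, h6, h7⟩ := exists_graph g
  exact ⟨⟨n, ω, W, k, h1, h2, h3, h4, h5, h6, h7⟩⟩

/-- chosen data -/
noncomputable def gdt (m : ℕ) : GraphData m := Classical.choice (exists_data m)

/-- components of `X` -/
abbrev XZ (m : ℕ) : Type := XV (Fin (gdt m).n) (Fin (gdt m).n × Fin 1024)

/-- components of `Y` -/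
abbrev YZ (m : ℕ) : Type := YV (Fin (gdt m).n) (Fin (gdt m).n × Fin 1024)

/-- the graphs -/
noncomputable def XGm (m : ℕ) : SimpleGraph (XZ m) := XG tl (gdt m).ω (gdt m).W

/-- the graphs -/
noncomputable def YGm (m : ℕ) : SimpleGraph (YZ m) := YG tl (gdt m).ω (gdt m).W

/-- the space `X` -/
abbrev XS : Type := Glue XZ XGm

/-- the space `Y` -/
abbrev YS : Type := Glue YZ YGm

/-- the map -/
noncomputable def pr (x : XS) : YS := ⟨x.idx, proj x.pt⟩

theorem X_ulf (r : ℝ) : ∃ N : ℕ, ∀ x : XS, (Metric.closedBall x r).encard ≤ N :=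
  glue_ulf DD (fun m x => XG_deg _ _ _ _ (gdt m).hdeg x) r

theorem Y_ulf (r : ℝ) : ∃ N : ℕ, ∀ y : YS, (Metric.closedBall y r).encard ≤ N :=
  glue_ulf DD (fun m x => YG_deg _ _ _ _ (gdt m).hdeg x) r

theorem pr_lip (x x' : XS) : dist (pr x) (pr x') ≤ dist x x' := by
  obtain ⟨i, x⟩ := x
  obtain ⟨j, y⟩ := x'
  rw [dist_def, dist_def]
  by_cases h : i = j
  · subst h
    simp only [pr]
    rw [gd_same, gd_same]
    have h1 : (YGm i).edist (proj x) (proj y) ≤ (XGm i).edist x y := proj_edist _ _ _ _ _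
    have h2 : td (YGm i) i (proj x) (proj y) ≤ td (XGm i) i x y := by
      have : ((td (YGm i) i (proj x) (proj y) : ℕ) : ℕ∞) ≤ ((td (XGm i) i x y : ℕ) : ℕ∞) := by
        rw [td_coe, td_coe]
        exact min_le_min_right _ h1
      exact_mod_cast this
    exact_mod_cast h2
  · simp only [pr]
    rw [gd_diff h, gd_diff h]

theorem pr_fib (y : YS) : (pr ⁻¹' {y}).encard ≤ 2 := by
  classical
  obtain ⟨m, v, S⟩ := y
  have hsub : pr ⁻¹' {(⟨m, v, S⟩ : YS)} ⊆ {(⟨m, v, S, 0⟩ : XS), (⟨m, v, S, 1⟩ : XS)} := by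
    rintro ⟨i, v', S', z⟩ hx
    rw [Set.mem_preimage, Set.mem_singleton_iff] at hx
    simp only [pr, proj, Glue.mk.injEq] at hx
    obtain ⟨h1, h2⟩ := hx
    subst h1
    have h3 := eq_of_heq h2
    simp only [Prod.mk.injEq] at h3
    obtain ⟨h3, h4⟩ := h3
    subst h3
    subst h4
    rcases zm2 z with h | h
    · left; rw [h]
    · right; rw [h]; rfl
  refine le_trans (Set.encard_le_encard hsub) ?_
  refine le_trans (Set.encard_insert_le _ _) ?_
  rw [Set.encard_singleton]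
  norm_num

/-- the Hilbert space of the embedding of `Y` -/
abbrev HY : Type := lp (fun m : ℕ => EuclideanSpace ℝ (Ix (Fin (gdt m).n) (Fin (gdt m).n × Fin 1024))) 2

/-- the embedding of one component -/
noncomputable def psm (m : ℕ) (y : YZ m) :
    EuclideanSpace ℝ (Ix (Fin (gdt m).n) (Fin (gdt m).n × Fin 1024)) :=
  psi tl (gdt m).ω (gdt m).W m y

/-- the embedding of `Y` -/
noncomputable def phi (y : YS) : HY := lp.single 2 y.idx (psm y.idx y.pt)

lemma phi_same (m : ℕ) (y y' : YZ m) :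
    ‖phi ⟨m, y⟩ - phi ⟨m, y'⟩‖ = ‖psm m y - psm m y'‖ := by
  simp only [phi]
  rw [← lp.single_sub, lp.norm_single (by norm_num)]

lemma phi_norm (m : ℕ) (y : YZ m) : ‖phi ⟨m, y⟩‖ = ‖psm m y‖ := by
  simp only [phi]
  rw [lp.norm_single (by norm_num)]

lemma phi_diff {i j : ℕ} (h : i ≠ j) (y : YZ i) (y' : YZ j) :
    (i : ℝ) + 1 ≤ ‖phi ⟨i, y⟩ - phi ⟨j, y'⟩‖ := by
  have h1 := lp.norm_apply_le_norm (by norm_num : (2 : ENNReal) ≠ 0) (phi ⟨i, y⟩ - phi ⟨j, y'⟩) i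
  refine le_trans ?_ h1
  have h2 : (phi ⟨i, y⟩ - phi ⟨j, y'⟩ : HY) i = psm i y := by
    simp only [phi, lp.coeFn_sub, Pi.sub_apply]
    rw [lp.single_apply_self, lp.single_apply_ne _ _ _ h, sub_zero]
  rw [h2]
  exact psi_norm _ _ _ _ _

theorem phi_lower (y y' : YS) : Real.sqrt (dist y y') ≤ ‖phi y - phi y'‖ := by
  obtain ⟨i, y⟩ := y
  obtain ⟨j, y'⟩ := y'
  rw [dist_def]
  by_cases h : i = j
  · subst h
    rw [gd_same, phi_same]
    apply Real.sqrt_le_iff.mpr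
    refine ⟨norm_nonneg _, ?_⟩
    by_cases hk : kp tl (gdt i).ω (gdt i).W y = kp tl (gdt i).ω (gdt i).W y'
    · have h1 : ‖psm i y - psm i y'‖ ^ 2 = (hd y.2 y'.2 : ℝ) := psi_same _ _ _ _ _ _ hk
      rw [h1]
      by_cases hh : hd y.2 y'.2 ≤ i
      · have h2 := edist_le_hd tl (gdt i).ω (gdt i).W i (gdt i).hg (hd y.2 y'.2) y y' hk rfl hh
        exact_mod_cast td_le_of_edist (YGm i) i h2
      · have h2 := td_le (YGm i) i y y'
        have : td (YGm i) i y y' ≤ hd y.2 y'.2 := by omega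
        exact_mod_cast this
    · have h1 : ((i : ℝ) + 1) ^ 2 ≤ ‖psm i y - psm i y'‖ ^ 2 := psi_diff _ _ _ _ _ _ hk
      refine le_trans ?_ h1
      have h2 := td_le (YGm i) i y y'
      have h3 : (td (YGm i) i y y' : ℝ) ≤ (i : ℝ) + 1 := by exact_mod_cast h2
      have h4 : (0 : ℝ) ≤ i := Nat.cast_nonneg _
      nlinarith
  · rw [gd_diff h]
    have h1 := phi_diff h y y'
    have h2 := phi_diff (Ne.symm h) y' y
    rw [norm_sub_rev] at h2
    have h3 : ((max i j + 1 : ℕ) : ℝ) ≤ ‖phi ⟨i, y⟩ - phi ⟨j, y'⟩‖ := by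
      rcases le_total i j with h4 | h4
      · rw [max_eq_right h4]; push_cast; exact h2
      · rw [max_eq_left h4]; push_cast; exact h1
    refine le_trans ?_ h3
    have h5 : (1 : ℝ) ≤ ((max i j + 1 : ℕ) : ℝ) := by
      have : 1 ≤ max i j + 1 := by omega
      exact_mod_cast this
    apply Real.sqrt_le_iff.mpr
    constructor
    · linarith
    · nlinarith

/-- bound for the norms in the first components -/
noncomputable def cst (R : ℕ) : ℝ := ∑ m ∈ Finset.range (R + 1), ∑ y : YZ m, ‖psm m y‖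

lemma phi_cst (R m : ℕ) (hm : m ≤ R) (y : YZ m) : ‖phi ⟨m, y⟩‖ ≤ cst R := by
  rw [phi_norm]
  unfold cst
  have h1 : ‖psm m y‖ ≤ ∑ y : YZ m, ‖psm m y‖ :=
    Finset.single_le_sum (f := fun y : YZ m => ‖psm m y‖) (fun _ _ => norm_nonneg _)
      (Finset.mem_univ y)
  refine le_trans h1 ?_
  exact Finset.single_le_sum (f := fun m => ∑ y : YZ m, ‖psm m y‖)
    (fun _ _ => Finset.sum_nonneg (fun _ _ => norm_nonneg _)) (Finset.mem_range.mpr (by omega))

lemma cst_nonneg (R : ℕ) : 0 ≤ cst R :=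
  Finset.sum_nonneg (fun _ _ => Finset.sum_nonneg (fun _ _ => norm_nonneg _))

theorem phi_upper (y y' : YS) :
    ‖phi y - phi y'‖ ≤ (⌊dist y y'⌋₊ : ℝ) + 2 * cst ⌊dist y y'⌋₊ := by
  obtain ⟨i, y⟩ := y
  obtain ⟨j, y'⟩ := y'
  rw [dist_def, Nat.floor_natCast]
  set R := gd (⟨i, y⟩ : YS) (⟨j, y'⟩ : YS) with hR
  have hc := cst_nonneg R
  have hR0 : (0 : ℝ) ≤ R := Nat.cast_nonneg _
  have hbig : i ≤ R → j ≤ R → ‖phi ⟨i, y⟩ - phi ⟨j, y'⟩‖ ≤ (R : ℝ) + 2 * cst R := by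
    intro hi hj
    have h1 := phi_cst R i hi y
    have h2 := phi_cst R j hj y'
    have h3 := norm_sub_le (phi ⟨i, y⟩) (phi ⟨j, y'⟩)
    linarith
  by_cases h : i = j
  · subst h
    rw [gd_same] at hR
    rcases of_td_le (YGm i) i (le_of_eq hR.symm) with h1 | h1
    · have h2 := psi_edist i h1
      rw [phi_same]
      have h3 : ‖psm i y - psm i y'‖ ≤ (R : ℝ) := h2
      linarith
    · exact hbig (by omega) (by omega)
  · rw [gd_diff h] at hR
    exact hbig (by omega) (by omega)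

lemma XG_dist (m : ℕ) {x x' : XZ m} (h : (XGm m).Adj x x') :
    dist (⟨m, x⟩ : XS) (⟨m, x'⟩ : XS) = 1 := by
  rw [dist_def, gd_same]
  have h1 : (XGm m).edist x x' = 1 := SimpleGraph.edist_eq_one_iff_adj.mpr h
  have h2 := td_coe (XGm m) m x x'
  rw [h1, min_eq_left] at h2
  · exact_mod_cast h2
  · have : (1 : ℕ) ≤ m + 1 := by omega
    exact_mod_cast this

lemma X_flip (m : ℕ) (v : Fin (gdt m).n) (S : Ed (gdt m).n 1024 → ZMod 2) :
    dist (⟨m, (v, S, 0)⟩ : XS) (⟨m, (v, S, 1)⟩ : XS) = (m : ℝ) + 1 := by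
  rw [dist_def, gd_same]
  have h1 := far_apart tl (gdt m).ω (gdt m).W m (gdt m).hg v S 0 1 zero_ne_one
  have h2 : td (XGm m) m (v, S, 0) (v, S, 1) = m + 1 := by
    apply le_antisymm (td_le _ _ _ _)
    by_contra hcon
    push Not at hcon
    rcases of_td_le (XGm m) m (Nat.lt_succ_iff.mp hcon) with h3 | h3
    · exact h1 h3
    · omega
  rw [h2]; push_cast; rfl

lemma kap_pos : 0 < kap := by
  unfold kap
  have hD0 : (0 : ℝ) ≤ (DD : ℝ) := Nat.cast_nonneg _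
  have : (0 : ℝ) < 8 * (1 + 4 * (DD : ℝ)) := by linarith
  positivity

lemma kap_le : kap ≤ 1 / 4 := by
  unfold kap
  have hD0 : (0 : ℝ) ≤ (DD : ℝ) := Nat.cast_nonneg _
  apply one_div_le_one_div_of_le (by norm_num)
  linarith

lemma DD_pos : 1 ≤ DD := by rw [DD_eq]; omega

theorem X_not {H : Type*} [NormedAddCommGroup H] [InnerProductSpace ℝ H] (g : XS → H)
    (ρm ρp : ℝ → ℝ) (hm : Tendsto ρm atTop atTop)
    (h1 : ∀ x x', ρm (dist x x') ≤ ‖g x - g x'‖) (h2 : ∀ x x', ‖g x - g x'‖ ≤ ρp (dist x x')) :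
    False := by
  classical
  set L := ρp 1 with hL
  set c : ℝ := kap ^ 2 / (8 * DD) with hc
  have hDR : (1 : ℝ) ≤ (DD : ℝ) := by exact_mod_cast DD_pos
  have hcpos : 0 < c := by
    have := kap_pos
    positivity
  -- choose the component
  obtain ⟨t₀, ht₀⟩ := (Filter.tendsto_atTop.mp hm (Real.sqrt (16384 * L ^ 2 / c) + 1)).exists_forall_of_atTop
  obtain ⟨m, hmt⟩ := exists_nat_ge t₀
  set M := ρm ((m : ℝ) + 1) with hM
  have hMge : Real.sqrt (16384 * L ^ 2 / c) + 1 ≤ M := ht₀ _ (by linarith)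
  have hsq : 16384 * L ^ 2 / c < M ^ 2 := by
    have h3 : 0 ≤ 16384 * L ^ 2 / c := by positivity
    have h4 := Real.sq_sqrt h3
    have h5 := Real.sqrt_nonneg (16384 * L ^ 2 / c)
    nlinarith
  have hM0 : 0 ≤ M := by
    have h5 := Real.sqrt_nonneg (16384 * L ^ 2 / c)
    linarith
  set D := gdt m with hD
  let F : Fin D.n → (Ed D.n 1024 → ZMod 2) → H := fun v S =>
    g ⟨m, (v, S, 0)⟩ - g ⟨m, (v, S, 1)⟩
  have hgap := hilbert_gap tl D.ω D.W DD DD_pos D.hdeg D.hexp kap kap_pos kap_le D.k D.hk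
    (D.hbad _) F
  have hadj : ∀ e ∈ act tl D.ω D.W, ∀ S : Ed D.n 1024 → ZMod 2, ∀ z : ZMod 2,
      ‖g ⟨m, (tl e, S, z)⟩ - g ⟨m, (D.ω e, S + Pi.single e 1, z + tau e S)⟩‖ ≤ L := by
    intro e he S z
    have h3 : (XGm m).Adj (tl e, S, z) (D.ω e, S + Pi.single e 1, z + tau e S) :=
      ⟨e, ⟨he, Or.inl ⟨rfl, rfl⟩⟩, rfl, rfl⟩
    have h4 := h2 (⟨m, (tl e, S, z)⟩ : XS) ⟨m, (D.ω e, S + Pi.single e 1, z + tau e S)⟩
    rw [XG_dist m h3] at h4
    exact h4
  have hup : ∀ e ∈ act tl D.ω D.W, ∀ S : Ed D.n 1024 → ZMod 2,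
      ‖F (tl e) S - sg (tau e S) • F (D.ω e) (S + Pi.single e 1)‖ ^ 2 ≤ 4 * L ^ 2 := by
    intro e he S
    have h3 := hadj e he S 0
    have h4 := hadj e he S 1
    have h5 : F (tl e) S - sg (tau e S) • F (D.ω e) (S + Pi.single e 1)
        = (g ⟨m, (tl e, S, 0)⟩ - g ⟨m, (D.ω e, S + Pi.single e 1, 0 + tau e S)⟩)
        - (g ⟨m, (tl e, S, 1)⟩ - g ⟨m, (D.ω e, S + Pi.single e 1, 1 + tau e S)⟩) := by
      simp only [F]
      rcases zm2 (tau e S) with h | h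
      · rw [h, sg_zero, one_smul, add_zero, add_zero]; abel
      · rw [h, sg_one, one_add_one2, zero_add]
        rw [neg_smul, one_smul]; abel
    have h6 : ‖F (tl e) S - sg (tau e S) • F (D.ω e) (S + Pi.single e 1)‖ ≤ 2 * L := by
      rw [h5]
      refine le_trans (norm_sub_le _ _) ?_
      linarith
    have h7 := norm_nonneg (F (tl e) S - sg (tau e S) • F (D.ω e) (S + Pi.single e 1))
    nlinarith
  have hlow : ∀ v (S : Ed D.n 1024 → ZMod 2), M ^ 2 ≤ ‖F v S‖ ^ 2 := by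
    intro v S
    have h3 := h1 (⟨m, (v, S, 0)⟩ : XS) ⟨m, (v, S, 1)⟩
    rw [X_flip] at h3
    exact pow_le_pow_left₀ hM0 h3 2
  set NS : ℝ := (Fintype.card (Ed D.n 1024 → ZMod 2) : ℝ) with hNS
  have hNSpos : 0 < NS := by
    rw [hNS]
    exact_mod_cast Fintype.card_pos
  have hLHS : c * ((D.W.card : ℝ) * (NS * M ^ 2)) ≤ c * ∑ v ∈ D.W, ∑ S, ‖F v S‖ ^ 2 := by
    apply mul_le_mul_of_nonneg_left _ hcpos.le
    calc (D.W.card : ℝ) * (NS * M ^ 2)
        = ∑ v ∈ D.W, ∑ S : Ed D.n 1024 → ZMod 2, M ^ 2 := by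
          rw [Finset.sum_const, Finset.sum_const, nsmul_eq_mul, nsmul_eq_mul, Finset.card_univ]
      _ ≤ _ := Finset.sum_le_sum (fun v _ => Finset.sum_le_sum (fun S _ => hlow v S))
  have hRHS : ∑ e ∈ act tl D.ω D.W, ∑ S,
      ‖F (tl e) S - sg (tau e S) • F (D.ω e) (S + Pi.single e 1)‖ ^ 2
      ≤ (2048 * (D.n : ℝ)) * (NS * (4 * L ^ 2)) := by
    calc ∑ e ∈ act tl D.ω D.W, ∑ S,
          ‖F (tl e) S - sg (tau e S) • F (D.ω e) (S + Pi.single e 1)‖ ^ 2
        ≤ ∑ e ∈ act tl D.ω D.W, ∑ S : Ed D.n 1024 → ZMod 2, 4 * L ^ 2 :=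
          Finset.sum_le_sum (fun e he => Finset.sum_le_sum (fun S _ => hup e he S))
      _ = ((act tl D.ω D.W).card : ℝ) * (NS * (4 * L ^ 2)) := by
          rw [Finset.sum_const, Finset.sum_const, nsmul_eq_mul, nsmul_eq_mul, Finset.card_univ]
      _ ≤ _ := by
          apply mul_le_mul_of_nonneg_right _ (by positivity)
          have h3 : (act tl D.ω D.W).card ≤ Fintype.card (Ed D.n 1024) := Finset.card_le_univ _
          rw [card_Ed] at h3
          have h4 : (act tl D.ω D.W).card ≤ 2048 * D.n := by omega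
          exact_mod_cast h4
  have h3 : c * ((D.W.card : ℝ) * (NS * M ^ 2)) ≤ (2048 * (D.n : ℝ)) * (NS * (4 * L ^ 2)) :=
    le_trans hLHS (le_trans hgap hRHS)
  have h4 : (D.n : ℝ) ≤ 2 * D.W.card := by exact_mod_cast D.hW
  have hWpos : (0 : ℝ) < D.W.card := by
    exact_mod_cast Finset.card_pos.mpr D.hne
  have h5 : (2048 * (D.n : ℝ)) * (NS * (4 * L ^ 2))
      ≤ (2048 * (2 * (D.W.card : ℝ))) * (NS * (4 * L ^ 2)) := by
    apply mul_le_mul_of_nonneg_right _ (by positivity)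
    linarith
  have h6 : (NS * D.W.card) * (c * M ^ 2) ≤ (NS * D.W.card) * (16384 * L ^ 2) := by
    calc (NS * D.W.card) * (c * M ^ 2) = c * ((D.W.card : ℝ) * (NS * M ^ 2)) := by ring
      _ ≤ (2048 * (2 * (D.W.card : ℝ))) * (NS * (4 * L ^ 2)) := le_trans h3 h5
      _ = (NS * D.W.card) * (16384 * L ^ 2) := by ring
  have h7 : c * M ^ 2 ≤ 16384 * L ^ 2 := le_of_mul_le_mul_left h6 (by positivity)
  have h8 : 16384 * L ^ 2 < c * M ^ 2 := by
    rw [div_lt_iff₀ hcpos] at hsq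
    linarith
  linarith

end Pool.Agent.H339R3.CE
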